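import Mathlib

set_option autoImplicit false

namespace Pool.Agent.H.MP_0e6637_co

/-- homogeneous of degree twelve, convex, with the Clarkson inequality -/
structure Good {W : Type} [AddCommGroup W] [Module ℝ W] (F : W → ℝ) : Prop where
  hom : ∀ (t : ℝ) (x : W), F (t • x) = t ^ 12 * F x
  conv : ∀ (a b : ℝ) (x y : W), 0 ≤ a → 0 ≤ b → a + b = 1 → F (a • x + b • y) ≤ a * F x + b * F y
  clk : ∀ x y : W, F ((1 / 2 : ℝ) • (x + y)) + F ((1 / 2 : ℝ) • (x - y)) ≤ (F x + F y) / 2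

theorem clk1 (a b : ℝ) : ((a + b) / 2) ^ 12 + ((a - b) / 2) ^ 12 ≤ (a ^ 12 + b ^ 12) / 2 := by
  have h1 : (((a + b) / 2) ^ 2) ^ 6 + (((a - b) / 2) ^ 2) ^ 6
      ≤ (((a + b) / 2) ^ 2 + ((a - b) / 2) ^ 2) ^ 6 :=
    pow_add_pow_le (sq_nonneg _) (sq_nonneg _) (by norm_num)
  have h2 : (a ^ 2 + b ^ 2) ^ 6 ≤ 2 ^ (6 - 1) * ((a ^ 2) ^ 6 + (b ^ 2) ^ 6) :=
    add_pow_le (sq_nonneg _) (sq_nonneg _) 6
  have h3 : ((a + b) / 2) ^ 2 + ((a - b) / 2) ^ 2 = (a ^ 2 + b ^ 2) / 2 := by ring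
  rw [h3, div_pow (a ^ 2 + b ^ 2)] at h1
  have e1 : ((a + b) / 2) ^ 12 = (((a + b) / 2) ^ 2) ^ 6 := by ring
  have e2 : ((a - b) / 2) ^ 12 = (((a - b) / 2) ^ 2) ^ 6 := by ring
  have e3 : a ^ 12 = (a ^ 2) ^ 6 := by ring
  have e4 : b ^ 12 = (b ^ 2) ^ 6 := by ring
  rw [e1, e2, e3, e4]
  norm_num at h1 h2 ⊢
  linarith

section
variable {W : Type} [AddCommGroup W] [Module ℝ W]

theorem good_lin (L : W → ℝ) (hL : IsLinearMap ℝ L) : Good (fun x => L x ^ 12) := by
  refine ⟨fun t x => ?_, fun a b x y ha hb hab => ?_, fun x y => ?_⟩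
  · rw [hL.map_smul, smul_eq_mul, mul_pow]
  · have h := (Even.convexOn_pow (𝕜 := ℝ) (n := 12) (by decide)).2
      (Set.mem_univ (L x)) (Set.mem_univ (L y)) ha hb hab
    simp only [smul_eq_mul] at h
    rw [hL.map_add, hL.map_smul, hL.map_smul, smul_eq_mul, smul_eq_mul]
    exact h
  · have h := clk1 (L x) (L y)
    rw [hL.map_smul, hL.map_smul, hL.map_add, hL.map_sub, smul_eq_mul, smul_eq_mul]
    have e1 : (1 / 2 : ℝ) * (L x + L y) = (L x + L y) / 2 := by ring
    have e2 : (1 / 2 : ℝ) * (L x - L y) = (L x - L y) / 2 := by ring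
    rw [e1, e2]; exact h

theorem Good.add {F G : W → ℝ} (hF : Good F) (hG : Good G) : Good (fun x => F x + G x) := by
  refine ⟨fun t x => ?_, fun a b x y ha hb hab => ?_, fun x y => ?_⟩
  · rw [hF.hom, hG.hom]; ring
  · have := hF.conv a b x y ha hb hab
    have := hG.conv a b x y ha hb hab
    linarith
  · have := hF.clk x y
    have := hG.clk x y
    linarith

theorem Good.mul {F : W → ℝ} (hF : Good F) {c : ℝ} (hc : 0 ≤ c) : Good (fun x => c * F x) := by
  refine ⟨fun t x => ?_, fun a b x y ha hb hab => ?_, fun x y => ?_⟩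
  · rw [hF.hom]; ring
  · have := mul_le_mul_of_nonneg_left (hF.conv a b x y ha hb hab) hc
    linarith
  · have := mul_le_mul_of_nonneg_left (hF.clk x y) hc
    linarith

theorem good_zero : Good (fun _ : W => (0 : ℝ)) :=
  ⟨fun _ _ => by simp, fun _ _ _ _ _ _ _ => by simp, fun _ _ => by simp⟩

theorem good_sum {ι : Type} (s : Finset ι) (F : ι → W → ℝ) (h : ∀ i, Good (F i)) :
    Good (fun x => ∑ i ∈ s, F i x) := by
  classical
  induction s using Finset.induction_on with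
  | empty => simpa using (good_zero (W := W))
  | insert a s ha ih =>
    simp only [Finset.sum_insert ha]
    exact (h a).add ih

end

theorem exists_norm {W : Type} [NormedAddCommGroup W] [NormedSpace ℝ W] {I : Type} [Nonempty I]
    (F : I → W → ℝ) (c C : ℝ) (hc : 0 < c) (hlo : ∀ i x, c * ‖x‖ ^ 12 ≤ F i x)
    (hhi : ∀ i x, F i x ≤ C * ‖x‖ ^ 12) (hg : ∀ i, Good (F i)) :
    ∃ N : W → ℝ, (∀ x, N x = 0 → x = 0) ∧ (∀ x y, N (x + y) ≤ N x + N y) ∧
      (∀ (t : ℝ) x, N (t • x) = |t| * N x) ∧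
      (∀ x y, N x = 1 → N y = 1 → x ≠ y → N (x + y) ≠ 2) ∧
      (∀ x, (∀ i, F i x ≤ 1) → (∃ i, F i x = 1) → N x = 1) := by
  set S : W → ℝ := fun x => ⨆ i, F i x with hS
  have hb : ∀ x, BddAbove (Set.range fun i => F i x) := fun x =>
    ⟨C * ‖x‖ ^ 12, by rintro _ ⟨i, rfl⟩; exact hhi i x⟩
  have hle : ∀ i x, F i x ≤ S x := fun i x => le_ciSup (hb x) i
  have hSle : ∀ x (r : ℝ), (∀ i, F i x ≤ r) → S x ≤ r := fun x r h => ciSup_le h
  have hSlo : ∀ x, c * ‖x‖ ^ 12 ≤ S x := fun x =>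
    (hlo (Classical.arbitrary I) x).trans (hle _ x)
  have hS0 : ∀ x, 0 ≤ S x := fun x => le_trans (by positivity) (hSlo x)
  have hShom : ∀ (t : ℝ) x, S (t • x) = t ^ 12 * S x := by
    intro t x
    have ht : 0 ≤ t ^ 12 := by positivity
    simp only [hS]
    rw [Real.mul_iSup_of_nonneg ht]
    exact iSup_congr fun i => (hg i).hom t x
  set N : W → ℝ := fun x => (S x) ^ ((12 : ℕ) : ℝ)⁻¹ with hN
  have hN0 : ∀ x, 0 ≤ N x := fun x => Real.rpow_nonneg (hS0 x) _
  have hNp : ∀ x, N x ^ 12 = S x := fun x => Real.rpow_inv_natCast_pow (hS0 x) (by norm_num)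
  have hinj : ∀ a b : ℝ, 0 ≤ a → 0 ≤ b → a ^ 12 = b ^ 12 → a = b := fun a b ha hb h =>
    (pow_left_inj₀ ha hb (by norm_num)).1 h
  have hz : ∀ x, N x = 0 → x = 0 := by
    intro x hx
    have h1 := hNp x
    rw [hx] at h1
    have h2 := hSlo x
    rw [← h1] at h2
    have h3 : ‖x‖ ^ 12 ≤ 0 := by
      by_contra h
      push Not at h
      have := mul_pos hc h
      norm_num at h2
      linarith
    have h4 : ‖x‖ ^ 12 = 0 := le_antisymm h3 (by positivity)
    exact norm_eq_zero.1 (pow_eq_zero_iff (by norm_num) |>.1 h4)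
  have hhom : ∀ (t : ℝ) x, N (t • x) = |t| * N x := by
    intro t x
    apply hinj _ _ (hN0 _) (mul_nonneg (abs_nonneg _) (hN0 _))
    rw [hNp, hShom, mul_pow, hNp, Even.pow_abs (by decide)]
  have hle1 : ∀ x, S x ≤ 1 → N x ≤ 1 := by
    intro x hx
    by_contra h
    push Not at h
    have := one_lt_pow₀ h (n := 12) (by norm_num)
    rw [hNp] at this
    linarith
  refine ⟨N, hz, ?_, hhom, ?_, ?_⟩
  · intro x y
    by_cases hx : N x = 0
    · rw [hz x hx, zero_add]; linarith [hN0 0]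
    by_cases hy : N y = 0
    · rw [hz y hy, add_zero]; linarith [hN0 0]
    have ha : 0 < N x := lt_of_le_of_ne (hN0 x) (Ne.symm hx)
    have hb' : 0 < N y := lt_of_le_of_ne (hN0 y) (Ne.symm hy)
    set a := N x with ha'
    set b := N y with hb''
    have hx1 : S (a⁻¹ • x) = 1 := by
      rw [hShom, ← hNp, ← ha', ← mul_pow, inv_mul_cancel₀ hx, one_pow]
    have hy1 : S (b⁻¹ • y) = 1 := by
      rw [hShom, ← hNp, ← hb'', ← mul_pow, inv_mul_cancel₀ hy, one_pow]
    have hab : 0 < a + b := by linarith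
    have key : S ((a / (a + b)) • (a⁻¹ • x) + (b / (a + b)) • (b⁻¹ • y)) ≤ 1 := by
      apply hSle
      intro i
      have h1 := (hg i).conv (a / (a + b)) (b / (a + b)) (a⁻¹ • x) (b⁻¹ • y)
        (by positivity) (by positivity) (by field_simp)
      have h2 := hle i (a⁻¹ • x)
      have h3 := hle i (b⁻¹ • y)
      rw [hx1] at h2
      rw [hy1] at h3
      have h4 : a / (a + b) * F i (a⁻¹ • x) ≤ a / (a + b) * 1 :=
        mul_le_mul_of_nonneg_left h2 (by positivity)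
      have h5 : b / (a + b) * F i (b⁻¹ • y) ≤ b / (a + b) * 1 :=
        mul_le_mul_of_nonneg_left h3 (by positivity)
      have h6 : a / (a + b) * 1 + b / (a + b) * 1 = 1 := by field_simp
      linarith
    have e : x + y = (a + b) • ((a / (a + b)) • (a⁻¹ • x) + (b / (a + b)) • (b⁻¹ • y)) := by
      rw [smul_add, smul_smul, smul_smul, smul_smul, smul_smul]
      have e1 : (a + b) * (a / (a + b)) * a⁻¹ = 1 := by field_simp
      have e2 : (a + b) * (b / (a + b)) * b⁻¹ = 1 := by field_simp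
      rw [e1, e2, one_smul, one_smul]
    rw [e, hhom, abs_of_pos hab]
    have := mul_le_mul_of_nonneg_left (hle1 _ key) hab.le
    linarith
  · intro x y hx hy hxy h2
    have hx1 : S x = 1 := by rw [← hNp, hx, one_pow]
    have hy1 : S y = 1 := by rw [← hNp, hy, one_pow]
    have hm : S ((1 / 2 : ℝ) • (x + y)) = 1 := by
      rw [← hNp, hhom, h2]; norm_num
    have hpos : 0 < ‖(1 / 2 : ℝ) • (x - y)‖ := by
      rw [norm_pos_iff]
      exact smul_ne_zero (by norm_num) (sub_ne_zero.2 hxy)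
    have hp2 : 0 < c * ‖(1 / 2 : ℝ) • (x - y)‖ ^ 12 := by positivity
    have : S ((1 / 2 : ℝ) • (x + y)) ≤ 1 - c * ‖(1 / 2 : ℝ) • (x - y)‖ ^ 12 := by
      apply hSle
      intro i
      have h1 := (hg i).clk x y
      have h2 := hle i x
      have h3 := hle i y
      have h4 := hlo i ((1 / 2 : ℝ) • (x - y))
      linarith
    linarith
  · rintro x h1 ⟨i, hi⟩
    apply hinj _ _ (hN0 _) zero_le_one
    rw [hNp, one_pow]
    exact le_antisymm (hSle x 1 h1) (hi ▸ hle i x)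

theorem transfer
    (H : ∀ (E : Type) [NormedAddCommGroup E] [NormedSpace ℝ E] [FiniteDimensional ℝ E]
      [StrictConvexSpace ℝ E],
      2 ≤ Module.finrank ℝ E →
      ∀ M : Set E, M.Infinite →
        (∃ c : E → Fin 2, ∀ f : E → E,
            (∀ x ∈ M, ∀ y ∈ M, dist (f x) (f y) = dist x y) →
            ∃ x ∈ M, ∃ y ∈ M, c (f x) ≠ c (f y)))
    (W : Type) [AddCommGroup W] [Module ℝ W] [hfd : FiniteDimensional ℝ W]
    (hr : 2 ≤ Module.finrank ℝ W) (N : W → ℝ) (h0 : ∀ x, N x = 0 → x = 0)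
    (hadd : ∀ x y, N (x + y) ≤ N x + N y) (hhom : ∀ (t : ℝ) x, N (t • x) = |t| * N x)
    (hs : ∀ x y, N x = 1 → N y = 1 → x ≠ y → N (x + y) ≠ 2) (M : Set W) (hM : M.Infinite) :
    ∃ c : W → Fin 2, ∀ f : W → W, (∀ x ∈ M, ∀ y ∈ M, N (f x - f y) = N (x - y)) →
      ∃ x ∈ M, ∃ y ∈ M, c (f x) ≠ c (f y) := by
  let g : AddGroupNorm W :=
    { toFun := N
      map_zero' := by
        have := hhom 0 0
        simpa using this
      add_le' := hadd
      neg' := fun x => by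
        have := hhom (-1) x
        simpa using this
      eq_zero_of_map_eq_zero' := h0 }
  let i1 : NormedAddCommGroup W := g.toNormedAddCommGroup
  let i2 : NormedSpace ℝ W :=
    { norm_smul_le := fun t x => le_of_eq (hhom t x) }
  have i3 : StrictConvexSpace ℝ W :=
    StrictConvexSpace.of_norm_add_ne_two fun x y hx hy hxy => hs x y hx hy hxy
  obtain ⟨c, hc⟩ := H W hr M hM
  refine ⟨c, fun f hf => hc f fun x hx y hy => ?_⟩
  rw [dist_eq_norm, dist_eq_norm]
  exact hf x hx y hy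

end Pool.Agent.H.MP_0e6637_co
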