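import Mathlib
import Pool.Agent.H.MP_0e6637_co.Norm

set_option autoImplicit false

namespace Pool.Agent.H.MP_0e6637_co

abbrev V : Type := Fin 8 → ℝ
abbrev W : Type := V × V

def Q (w : W) : ℝ := ∑ r, (w.1 r) ^ 12 + ∑ r, (w.2 r) ^ 12

theorem sum_le (x : V) (R : ℝ) (h : ‖x‖ ≤ R) : ∑ r, (x r) ^ 12 ≤ 8 * R ^ 12 := by
  have : ∀ r, (x r) ^ 12 ≤ R ^ 12 := by
    intro r
    rw [← Even.pow_abs (by decide)]
    exact pow_le_pow_left₀ (abs_nonneg _) ((norm_le_pi_norm x r).trans h) 12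
  calc ∑ r, (x r) ^ 12 ≤ ∑ _r : Fin 8, R ^ 12 := Finset.sum_le_sum fun r _ => this r
    _ = 8 * R ^ 12 := by simp

theorem le_sum (x : V) : ‖x‖ ^ 12 ≤ ∑ r, (x r) ^ 12 := by
  obtain ⟨r, hr⟩ : ∃ r, ‖x‖ ≤ |x r| := by
    obtain ⟨r, -, hr⟩ := Finset.exists_max_image Finset.univ (fun r => |x r|) Finset.univ_nonempty
    exact ⟨r, (pi_norm_le_iff_of_nonneg (abs_nonneg _)).2 fun i => hr i (Finset.mem_univ _)⟩
  calc ‖x‖ ^ 12 ≤ |x r| ^ 12 := pow_le_pow_left₀ (norm_nonneg _) hr 12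
    _ = (x r) ^ 12 := Even.pow_abs (by decide) _
    _ ≤ ∑ r, (x r) ^ 12 :=
      Finset.single_le_sum (f := fun r => (x r) ^ 12) (fun i _ => by positivity) (Finset.mem_univ r)

theorem Q_le (w : W) (R : ℝ) (h : ‖w‖ ≤ R) : Q w ≤ 16 * R ^ 12 := by
  have h1 := sum_le w.1 R ((norm_fst_le w).trans h)
  have h2 := sum_le w.2 R ((norm_snd_le w).trans h)
  unfold Q; linarith

theorem le_Q (w : W) : ‖w‖ ^ 12 ≤ Q w := by
  have h1 := le_sum w.1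
  have h2 := le_sum w.2
  have h3 : 0 ≤ ‖w.1‖ ^ 12 := by positivity
  have h4 : 0 ≤ ‖w.2‖ ^ 12 := by positivity
  unfold Q
  rw [Prod.norm_def]
  rcases max_cases ‖w.1‖ ‖w.2‖ with h | h <;> rw [h.1] <;> linarith

theorem Q_swap (w : W) : Q w.swap = Q w := by unfold Q; simp [add_comm]

/-- the function attached to a point and a functional -/
def Fq (c : ℝ) (p : W) (L : W → ℝ) (x : W) : ℝ := L x ^ 12 + c * Q (x - L x • p)

theorem good_Fq {c : ℝ} (hc : 0 ≤ c) (p : W) (L : W → ℝ) (hL : IsLinearMap ℝ L) :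
    Good (Fq c p L) := by
  have h1 : ∀ r, Good (fun x : W => ((x - L x • p).1 r) ^ 12) := fun r =>
    good_lin (fun x : W => (x - L x • p).1 r)
      ⟨fun x y => by simp [hL.map_add]; ring, fun t x => by simp [hL.map_smul]; ring⟩
  have h2 : ∀ r, Good (fun x : W => ((x - L x • p).2 r) ^ 12) := fun r =>
    good_lin (fun x : W => (x - L x • p).2 r)
      ⟨fun x y => by simp [hL.map_add]; ring, fun t x => by simp [hL.map_smul]; ring⟩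
  exact (good_lin L hL).add (((good_sum _ _ h1).add (good_sum _ _ h2)).mul hc)

theorem Fq_lo {c : ℝ} (hc : 0 ≤ c) (hc1 : c ≤ 1) (p : W) (hp : ‖p‖ ≤ 2) (L : W → ℝ) (x : W) :
    c / 4 ^ 12 * ‖x‖ ^ 12 ≤ Fq c p L x := by
  have hQ := le_Q (x - L x • p)
  have h0 : 0 ≤ L x ^ 12 := by positivity
  have h00 : 0 ≤ c * Q (x - L x • p) := mul_nonneg hc (le_trans (by positivity) hQ)
  have e : c / 4 ^ 12 * ‖x‖ ^ 12 = c * (‖x‖ / 4) ^ 12 := by ring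
  rw [e]
  unfold Fq
  by_cases h : ‖x‖ / 4 ≤ |L x|
  · have h1 : (‖x‖ / 4) ^ 12 ≤ L x ^ 12 := by
      rw [← Even.pow_abs (by decide) (L x)]
      exact pow_le_pow_left₀ (by positivity) h 12
    have h2 : c * (‖x‖ / 4) ^ 12 ≤ 1 * (‖x‖ / 4) ^ 12 :=
      mul_le_mul_of_nonneg_right hc1 (by positivity)
    linarith
  · push Not at h
    have h1 : ‖x‖ ≤ ‖x - L x • p‖ + ‖L x • p‖ := by
      have := norm_add_le (x - L x • p) (L x • p)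
      simpa using this
    rw [norm_smul, Real.norm_eq_abs] at h1
    have h2 : |L x| * ‖p‖ ≤ |L x| * 2 := mul_le_mul_of_nonneg_left hp (abs_nonneg _)
    have h3 : ‖x‖ / 4 ≤ ‖x - L x • p‖ := by linarith [norm_nonneg x]
    have h4 : (‖x‖ / 4) ^ 12 ≤ Q (x - L x • p) :=
      (pow_le_pow_left₀ (by positivity) h3 12).trans hQ
    have := mul_le_mul_of_nonneg_left h4 hc
    linarith

theorem Fq_hi {c : ℝ} (hc : 0 ≤ c) (hc1 : c ≤ 1) (p : W) (hp : ‖p‖ ≤ 2) (L : W → ℝ) (x : W)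
    (hL : |L x| ≤ 20 * ‖x‖) : Fq c p L x ≤ (20 ^ 12 + 16 * 41 ^ 12) * ‖x‖ ^ 12 := by
  have h1 : L x ^ 12 ≤ (20 * ‖x‖) ^ 12 := by
    rw [← Even.pow_abs (by decide) (L x)]
    exact pow_le_pow_left₀ (abs_nonneg _) hL 12
  have h2 : ‖x - L x • p‖ ≤ 41 * ‖x‖ := by
    have h3 := norm_sub_le x (L x • p)
    rw [norm_smul, Real.norm_eq_abs] at h3
    have h4 : |L x| * ‖p‖ ≤ |L x| * 2 := mul_le_mul_of_nonneg_left hp (abs_nonneg _)
    linarith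
  have h3 := Q_le _ _ h2
  have h4 : c * Q (x - L x • p) ≤ 1 * Q (x - L x • p) :=
    mul_le_mul_of_nonneg_right hc1 (le_trans (by positivity) (le_Q _))
  unfold Fq
  rw [mul_pow] at h1 h3
  linarith

theorem Fq_self (c : ℝ) (p : W) (L : W → ℝ) (h : L p = 1) : Fq c p L p = 1 := by
  unfold Fq Q
  simp [h]

theorem Fq_close {c K : ℝ} (hc : 0 ≤ c) (hK : 0 ≤ K) (hcK : c * (16 * 2 ^ 11 * (K + 2 ^ 12)) ≤ 1)
    (p x : W) (hp : ‖p‖ ≤ 2) (L : W → ℝ) (g : ℝ) (hg : L x = 1 - g) (h0 : 0 ≤ g) (h1 : g ≤ 1)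
    (hD : ‖p - x‖ ^ 12 ≤ K * g) : Fq c p L x ≤ 1 := by
  have h2 : L x ^ 12 ≤ 1 - g := by
    rw [hg]
    exact pow_le_of_le_one (by linarith) (by linarith) (by norm_num)
  have h3 : ‖x - L x • p‖ ≤ ‖p - x‖ + 2 * g := by
    have e : x - L x • p = -(p - x) + g • p := by
      rw [hg, sub_smul, one_smul]; abel
    rw [e]
    have h4 := norm_add_le (-(p - x)) (g • p)
    rw [norm_neg, norm_smul, Real.norm_eq_abs, abs_of_nonneg h0] at h4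
    have h5 : g * ‖p‖ ≤ g * 2 := mul_le_mul_of_nonneg_left hp h0
    linarith
  have h4 := Q_le _ _ h3
  have h5 : (‖p - x‖ + 2 * g) ^ 12 ≤ 2 ^ (12 - 1) * (‖p - x‖ ^ 12 + (2 * g) ^ 12) :=
    add_pow_le (norm_nonneg _) (by linarith) 12
  have h6 : g ^ 12 ≤ g := pow_le_of_le_one h0 h1 (by norm_num)
  rw [mul_pow] at h5
  have h7 : Q (x - L x • p) ≤ (16 * 2 ^ 11 * (K + 2 ^ 12)) * g := by
    norm_num at h5 h4 ⊢
    nlinarith
  have h8 := mul_le_mul_of_nonneg_left h7 hc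
  have h9 : c * (16 * 2 ^ 11 * (K + 2 ^ 12) * g) ≤ 1 * g := by
    rw [← mul_assoc]
    exact mul_le_mul_of_nonneg_right hcK h0
  unfold Fq
  linarith

theorem Fq_far {c K : ℝ} (hc : 0 ≤ c) (hK : 0 ≤ K) (hcK : c * (16 * 2 ^ 11 * (K + 2 ^ 12)) ≤ 1)
    (p x : W) (hp : ‖p‖ ≤ 2) (hx : ‖x‖ ≤ 2) (L : W → ℝ) (hg : |L x| ≤ 1 / 2) :
    Fq c p L x ≤ 1 := by
  have h1 : L x ^ 12 ≤ (1 / 2) ^ 12 := by
    rw [← Even.pow_abs (by decide) (L x)]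
    exact pow_le_pow_left₀ (abs_nonneg _) hg 12
  have h2 : ‖x - L x • p‖ ≤ 3 := by
    have h3 := norm_sub_le x (L x • p)
    rw [norm_smul, Real.norm_eq_abs] at h3
    have h4 : |L x| * ‖p‖ ≤ |L x| * 2 := mul_le_mul_of_nonneg_left hp (abs_nonneg _)
    linarith
  have h3 := mul_le_mul_of_nonneg_left (Q_le _ _ h2) hc
  have h4 : c * (16 * 2 ^ 11 * 2 ^ 12) ≤ c * (16 * 2 ^ 11 * (K + 2 ^ 12)) :=
    mul_le_mul_of_nonneg_left (by linarith) hc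
  unfold Fq
  norm_num at h1 h3 h4 hcK ⊢
  linarith

/-- feature vector -/
def feat (t s : ℝ) : V := ![t, t ^ 2, t ^ 5 * s ^ 2, t ^ 5 * s, t ^ 5, t ^ 4 * s ^ 2, t ^ 4 * s, t ^ 4]

def ell (ti tj a b : ℝ) (x : V) : ℝ :=
  (1 - (ti + tj) ^ 2) * x 0 + 2 * (ti + tj) * x 1 - (2 * x 2 - 2 * (a + b) * x 3 + (a ^ 2 + b ^ 2) * x 4)
    + ((ti + tj) * x 5 - 2 * (tj * a + ti * b) * x 6 + (tj * a ^ 2 + ti * b ^ 2) * x 7)

def GG (ti tj a b t s : ℝ) : ℝ := t ^ 4 * ((t - tj) * (s - a) ^ 2 - (ti - t) * (s - b) ^ 2)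

def dd (t u : ℝ) : ℝ := (t - u) * (1 + (t + u) ^ 2)

theorem ell_lin (ti tj a b : ℝ) : IsLinearMap ℝ (ell ti tj a b) :=
  ⟨fun x y => by simp [ell]; ring, fun t x => by simp [ell]; ring⟩

theorem ell_key (ti tj a b tk tl s s' : ℝ) :
    ell ti tj a b (feat tk s - feat tl s') =
      dd tk tl - ((tk - tl) * (tk + tl - ti - tj) ^ 2 + GG ti tj a b tk s - GG ti tj a b tl s') := by
  simp [ell, feat, dd, GG]
  ring

theorem ell_le {ti tj a b : ℝ} (h1 : 0 ≤ ti) (h2 : ti ≤ 1 / 4) (h3 : 0 ≤ tj) (h4 : tj ≤ 1 / 4)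
    (ha : |a| ≤ 1) (hb : |b| ≤ 1) (x : V) : |ell ti tj a b x| ≤ 20 * ‖x‖ := by
  have hx : ∀ r, |x r| ≤ ‖x‖ := fun r => norm_le_pi_norm x r
  have key : ∀ (k C : ℝ) (r : Fin 8), |k| ≤ C → |k * x r| ≤ C * ‖x‖ := by
    intro k C r hk
    rw [abs_mul]
    exact mul_le_mul hk (hx r) (abs_nonneg _) ((abs_nonneg _).trans hk)
  obtain ⟨ha1, ha2⟩ := abs_le.1 ha
  obtain ⟨hb1, hb2⟩ := abs_le.1 hb
  have ha3 : a ^ 2 ≤ 1 := by nlinarith
  have hb3 : b ^ 2 ≤ 1 := by nlinarith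
  have k0 := abs_le.1 (key (1 - (ti + tj) ^ 2) 1 0 (abs_le.2 ⟨by nlinarith, by nlinarith⟩))
  have k1 := abs_le.1 (key (2 * (ti + tj)) 1 1 (abs_le.2 ⟨by nlinarith, by nlinarith⟩))
  have k2 := abs_le.1 (key 2 2 2 (abs_le.2 ⟨by norm_num, by norm_num⟩))
  have k3 := abs_le.1 (key (2 * (a + b)) 4 3 (abs_le.2 ⟨by nlinarith, by nlinarith⟩))
  have k4 := abs_le.1 (key (a ^ 2 + b ^ 2) 2 4 (abs_le.2 ⟨by nlinarith, by nlinarith⟩))
  have k5 := abs_le.1 (key (ti + tj) 1 5 (abs_le.2 ⟨by nlinarith, by nlinarith⟩))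
  have k6 := abs_le.1 (key (2 * (tj * a + ti * b)) 1 6 (abs_le.2 ⟨by nlinarith, by nlinarith⟩))
  have k7 := abs_le.1 (key (tj * a ^ 2 + ti * b ^ 2) 1 7 (abs_le.2 ⟨by nlinarith, by nlinarith⟩))
  have hn := norm_nonneg x
  unfold ell
  rw [abs_le]
  constructor <;> linarith [k0.1, k0.2, k1.1, k1.2, k2.1, k2.2, k3.1, k3.2, k4.1, k4.2, k5.1, k5.2,
    k6.1, k6.2, k7.1, k7.2]

theorem GG_le {ti tj a b t s : ℝ} (h1 : 0 ≤ ti) (h2 : ti ≤ 1 / 8) (h3 : 0 ≤ tj) (h4 : tj ≤ 1 / 8)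
    (h5 : 0 ≤ t) (h6 : t ≤ 1 / 8) (ha : |a| ≤ 1) (hb : |b| ≤ 1) (hs : |s| ≤ 1) :
    |GG ti tj a b t s| ≤ t ^ 4 := by
  obtain ⟨ha1, ha2⟩ := abs_le.1 ha
  obtain ⟨hb1, hb2⟩ := abs_le.1 hb
  obtain ⟨hs1, hs2⟩ := abs_le.1 hs
  have e1 : (s - a) ^ 2 ≤ 4 := by nlinarith
  have e2 : (s - b) ^ 2 ≤ 4 := by nlinarith
  have e3 := sq_nonneg (s - a)
  have e4 := sq_nonneg (s - b)
  have h : |(t - tj) * (s - a) ^ 2 - (ti - t) * (s - b) ^ 2| ≤ 1 := by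
    rw [abs_le]
    constructor <;> nlinarith
  unfold GG
  rw [abs_mul, abs_of_nonneg (by positivity : (0 : ℝ) ≤ t ^ 4)]
  have := mul_le_mul_of_nonneg_left h (by positivity : (0 : ℝ) ≤ t ^ 4)
  linarith

def e0 : V := ![1, 0, 0, 0, 0, 0, 0, 0]

theorem feat_near {t s : ℝ} (h0 : 0 ≤ t) (h1 : t ≤ 1) (hs : |s| ≤ 1) :
    ‖feat t s - t • e0‖ ≤ t ^ 2 := by
  have p4 : t ^ 4 ≤ t ^ 2 := pow_le_pow_of_le_one h0 h1 (by norm_num)
  have p5 : t ^ 5 ≤ t ^ 2 := pow_le_pow_of_le_one h0 h1 (by norm_num)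
  have q4 : 0 ≤ t ^ 4 := by positivity
  have q5 : 0 ≤ t ^ 5 := by positivity
  have hs2 : |s ^ 2| ≤ 1 := by rw [abs_pow]; exact pow_le_one₀ (abs_nonneg _) hs
  have key : ∀ u v : ℝ, 0 ≤ u → u ≤ t ^ 2 → |v| ≤ 1 → |u * v| ≤ t ^ 2 := by
    intro u v hu hu2 hv
    rw [abs_mul, abs_of_nonneg hu]
    have := mul_le_mul_of_nonneg_left hv hu
    linarith
  rw [pi_norm_le_iff_of_nonneg (by positivity)]
  intro r
  rw [Real.norm_eq_abs]
  fin_cases r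
  · simp [feat, e0]; positivity
  · simp [feat, e0]
  · simpa [feat, e0] using key _ _ q5 p5 hs2
  · simpa [feat, e0] using key _ _ q5 p5 hs
  · simpa [feat, e0] using key _ 1 q5 p5 (by simp)
  · simpa [feat, e0] using key _ _ q4 p4 hs2
  · simpa [feat, e0] using key _ _ q4 p4 hs
  · simpa [feat, e0] using key _ 1 q4 p4 (by simp)

theorem norm_e0 : ‖e0‖ ≤ 1 := by
  rw [pi_norm_le_iff_of_nonneg (by positivity)]
  intro r
  fin_cases r <;> simp [e0]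

theorem feat_norm {t s : ℝ} (h0 : 0 ≤ t) (h1 : t ≤ 1) (hs : |s| ≤ 1) : ‖feat t s‖ ≤ 2 * t := by
  have h2 := feat_near h0 h1 hs
  have h3 := norm_add_le (feat t s - t • e0) (t • e0)
  rw [sub_add_cancel, norm_smul, Real.norm_eq_abs, abs_of_nonneg h0] at h3
  have h4 := mul_le_mul_of_nonneg_left norm_e0 h0
  nlinarith

theorem feat_lip {t s s' : ℝ} (h0 : 0 ≤ t) (h1 : t ≤ 1) (hs : |s| ≤ 1) (hs' : |s'| ≤ 1) :
    ‖feat t s - feat t s'‖ ≤ 2 * t ^ 4 * |s - s'| := by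
  have p5 : t ^ 5 ≤ t ^ 4 := pow_le_pow_of_le_one h0 h1 (by norm_num)
  have q4 : 0 ≤ t ^ 4 := by positivity
  have q5 : 0 ≤ t ^ 5 := by positivity
  have key : ∀ u v : ℝ, 0 ≤ u → u ≤ t ^ 4 → |v| ≤ 2 → |u * v * (s - s')| ≤ 2 * t ^ 4 * |s - s'| := by
    intro u v hu hu2 hv
    rw [abs_mul, abs_mul, abs_of_nonneg hu]
    apply mul_le_mul_of_nonneg_right _ (abs_nonneg _)
    have := mul_le_mul_of_nonneg_left hv hu
    linarith
  have hss : |s + s'| ≤ 2 := (abs_add_le _ _).trans (by linarith)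
  rw [pi_norm_le_iff_of_nonneg (by positivity)]
  intro r
  rw [Real.norm_eq_abs]
  fin_cases r
  · simp [feat]; positivity
  · simp [feat]; positivity
  · have := key _ _ q5 p5 hss
    have e : t ^ 5 * (s + s') * (s - s') = t ^ 5 * s ^ 2 - t ^ 5 * s' ^ 2 := by ring
    rw [e] at this
    simpa [feat] using this
  · have := key _ 1 q5 p5 (by norm_num)
    have e : t ^ 5 * 1 * (s - s') = t ^ 5 * s - t ^ 5 * s' := by ring
    rw [e] at this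
    simpa [feat] using this
  · simp [feat]; positivity
  · have := key _ _ q4 le_rfl hss
    have e : t ^ 4 * (s + s') * (s - s') = t ^ 4 * s ^ 2 - t ^ 4 * s' ^ 2 := by ring
    rw [e] at this
    simpa [feat] using this
  · have := key _ 1 q4 le_rfl (by norm_num)
    have e : t ^ 4 * 1 * (s - s') = t ^ 4 * s - t ^ 4 * s' := by ring
    rw [e] at this
    simpa [feat] using this
  · simp [feat]; positivity

end Pool.Agent.H.MP_0e6637_co
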