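import Mathlib
import Pool.Agent.H.MP_0e6637_co.Geo

set_option autoImplicit false

namespace Pool.Agent.H.MP_0e6637_co

def pt (t : ℝ) (u : ℝ × V) : W := (u.2, feat t u.1)

def Ok (t : ℝ) (u : ℝ × V) : Prop := |u.1| ≤ 1 ∧ ‖u.2‖ ≤ 5 * t ^ 2

def eW : W := (0, e0)

noncomputable def pp (t t' : ℝ) (u v : ℝ × V) : W := (dd t t')⁻¹ • (pt t u - pt t' v)

theorem norm_eW : ‖eW‖ ≤ 1 := by
  rw [Prod.norm_def]
  exact max_le (by simp [eW]) norm_e0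

theorem pt_near {t : ℝ} {u : ℝ × V} (h0 : 0 ≤ t) (h1 : t ≤ 1) (hu : Ok t u) :
    ‖pt t u - t • eW‖ ≤ 5 * t ^ 2 := by
  rw [Prod.norm_def]
  apply max_le
  · simpa [pt, eW] using hu.2
  · have := feat_near h0 h1 hu.1
    have e : (pt t u - t • eW).2 = feat t u.1 - t • e0 := by simp [pt, eW]
    rw [e]
    nlinarith [sq_nonneg t]

theorem pt_norm {t : ℝ} {u : ℝ × V} (h0 : 0 ≤ t) (h1 : t ≤ 1 / 4) (hu : Ok t u) :
    ‖pt t u‖ ≤ 2 * t := by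
  rw [Prod.norm_def]
  apply max_le
  · have := hu.2
    simp only [pt]
    nlinarith
  · exact feat_norm h0 (by linarith) hu.1

theorem dd_inf {t u : ℝ} (h0 : 0 < t) (h1 : t ≤ 1 / 8) (h2 : 0 ≤ u) (h3 : u ≤ t) :
    |dd t u - t * (1 + t ^ 2)| ≤ 2 * u := by
  have e : dd t u - t * (1 + t ^ 2) = u * (t ^ 2 - 1 - t * u - u ^ 2) := by unfold dd; ring
  have a1 : t ^ 2 ≤ 1 / 64 := by nlinarith
  have a2 : t * u ≤ 1 / 64 := by nlinarith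
  have a3 : u ^ 2 ≤ 1 / 64 := by nlinarith
  have a4 : 0 ≤ t * u := by positivity
  have : |t ^ 2 - 1 - t * u - u ^ 2| ≤ 2 := by
    rw [abs_le]; constructor <;> nlinarith [sq_nonneg t, sq_nonneg u]
  rw [e, abs_mul, abs_of_nonneg h2]
  have := mul_le_mul_of_nonneg_left this h2
  linarith

theorem dd_near {t u : ℝ} (h0 : 0 < t) (h1 : t ≤ 1 / 8) (h2 : 0 ≤ u) (h3 : u ≤ t ^ 2) :
    |dd t u - t| ≤ 3 * t ^ 2 := by
  have h4 : u ≤ t := by nlinarith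
  obtain ⟨a, b⟩ := abs_le.1 (dd_inf h0 h1 h2 h4)
  have c1 : t * t ^ 2 ≤ t ^ 2 := by nlinarith [sq_nonneg t]
  have c2 : 0 ≤ t * t ^ 2 := by positivity
  rw [abs_le]; constructor <;> nlinarith

theorem dd_lo {t u : ℝ} (h0 : 0 < t) (h1 : t ≤ 1 / 8) (h2 : 0 ≤ u) (h3 : u ≤ t ^ 2) :
    t / 2 ≤ dd t u := by
  obtain ⟨a, b⟩ := abs_le.1 (dd_near h0 h1 h2 h3)
  nlinarith

theorem dd_hi {t u : ℝ} (h0 : 0 < t) (h1 : t ≤ 1 / 8) (h2 : 0 ≤ u) (h3 : u ≤ t ^ 2) :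
    dd t u ≤ 2 * t := by
  obtain ⟨a, b⟩ := abs_le.1 (dd_near h0 h1 h2 h3)
  nlinarith

theorem inv_norm_le {d t R : ℝ} (ht : 0 < t) (hd : t / 2 ≤ d) (w : W) (hw : ‖w‖ ≤ R) :
    ‖d⁻¹ • w‖ ≤ 2 / t * R := by
  have hd0 : 0 < d := by linarith
  rw [norm_smul, Real.norm_eq_abs, abs_of_pos (inv_pos.2 hd0)]
  have h1 : d⁻¹ ≤ 2 / t := by
    rw [inv_eq_one_div, div_le_div_iff₀ hd0 ht]; linarith
  exact mul_le_mul h1 hw (norm_nonneg _) (by positivity)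

theorem pp_near {t t' : ℝ} {u v : ℝ × V} (h0 : 0 < t) (h1 : t ≤ 1 / 8) (h2 : 0 ≤ t')
    (h3 : t' ≤ t ^ 2) (hu : Ok t u) (hv : Ok t' v) : ‖pp t t' u v - eW‖ ≤ 20 * t := by
  have hd := dd_lo h0 h1 h2 h3
  have hd0 : dd t t' ≠ 0 := by linarith [h0] |> fun (h : 0 < dd t t') => h.ne'
  have e : pp t t' u v - eW
      = (dd t t')⁻¹ • ((pt t u - t • eW) - pt t' v - (dd t t' - t) • eW) := by
    unfold pp
    have : eW = (dd t t')⁻¹ • (dd t t' • eW) := by rw [smul_smul, inv_mul_cancel₀ hd0, one_smul]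
    conv_lhs => rw [this]
    rw [← smul_sub]
    congr 1
    rw [sub_smul]; abel
  have b1 := pt_near h0.le (by linarith) hu
  have b2 := pt_norm h2 (by nlinarith) hv
  have b3 : ‖(dd t t' - t) • eW‖ ≤ 3 * t ^ 2 := by
    rw [norm_smul, Real.norm_eq_abs]
    have := mul_le_mul (dd_near h0 h1 h2 h3) norm_eW (norm_nonneg _) (by positivity)
    linarith
  have b4 : ‖(pt t u - t • eW) - pt t' v - (dd t t' - t) • eW‖ ≤ 10 * t ^ 2 := by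
    have c1 := norm_sub_le ((pt t u - t • eW) - pt t' v) ((dd t t' - t) • eW)
    have c2 := norm_sub_le (pt t u - t • eW) (pt t' v)
    linarith
  rw [e]
  refine (inv_norm_le h0 hd _ b4).trans (le_of_eq ?_)
  field_simp
  ring

theorem pp_norm {t t' : ℝ} {u v : ℝ × V} (h0 : 0 < t) (h1 : t ≤ 1 / 1024) (h2 : 0 ≤ t')
    (h3 : t' ≤ t ^ 2) (hu : Ok t u) (hv : Ok t' v) : ‖pp t t' u v‖ ≤ 2 := by
  have h := pp_near h0 (by linarith) h2 h3 hu hv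
  have h4 := norm_add_le (pp t t' u v - eW) eW
  rw [sub_add_cancel] at h4
  linarith [norm_eW]

theorem pp_fst {t t' : ℝ} {u v : ℝ × V} (h0 : 0 < t) (h1 : t ≤ 1 / 1024) (h2 : 0 ≤ t')
    (h3 : t' ≤ t ^ 2) (hu : Ok t u) (hv : Ok t' v) : ‖(pp t t' u v).1‖ ≤ 1 / 40 := by
  have h := pp_near h0 (by linarith) h2 h3 hu hv
  have h4 := norm_fst_le (pp t t' u v - eW)
  have e : (pp t t' u v - eW).1 = (pp t t' u v).1 := by simp [eW]
  rw [e] at h4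
  linarith

/-- numerator of the gap -/
def num (ti tj a b tk tl s s' : ℝ) : ℝ :=
  (tk - tl) * (tk + tl - ti - tj) ^ 2 + GG ti tj a b tk s - GG ti tj a b tl s'

theorem ell_pp (ti tj a b : ℝ) {tk tl : ℝ} (u v : ℝ × V) (hd : dd tk tl ≠ 0) :
    ell ti tj a b (pp tk tl u v).2 = 1 - (dd tk tl)⁻¹ * num ti tj a b tk tl u.1 v.1 := by
  have e : (pp tk tl u v).2 = (dd tk tl)⁻¹ • (feat tk u.1 - feat tl v.1) := by simp [pp, pt]
  rw [e, (ell_lin ti tj a b).map_smul, ell_key, smul_eq_mul, mul_sub, inv_mul_cancel₀ hd]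
  rfl

theorem num_self (ti tj a b : ℝ) : num ti tj a b ti tj a b = 0 := by
  unfold num GG; ring

theorem num_hi {ti tj a b tk tl s s' : ℝ} (i0 : 0 < ti) (i1 : ti ≤ 1 / 1024) (j0 : 0 < tj)
    (j1 : tj ≤ ti ^ 2) (k0 : 0 < tk) (k1 : tk ≤ 1 / 1024) (l0 : 0 < tl) (l1 : tl ≤ tk ^ 2)
    (ha : |a| ≤ 1) (hb : |b| ≤ 1) (hs : |s| ≤ 1) (hs' : |s'| ≤ 1) :
    num ti tj a b tk tl s s' ≤ tk / 2 := by
  have j2 : tj ≤ 1 / 1024 := by nlinarith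
  have l2 : tl ≤ tk := by nlinarith
  have g1 := (abs_le.1 (GG_le i0.le (by linarith) j0.le (by linarith) k0.le (by linarith) ha hb hs)).2
  have g2 := (abs_le.1 (GG_le i0.le (by linarith) j0.le (by linarith) l0.le (by linarith) ha hb hs')).1
  have p1 : tl ^ 4 ≤ tk ^ 4 := pow_le_pow_left₀ l0.le l2 4
  have p2 : tk ^ 4 ≤ tk / 8 := by
    have : tk ^ 3 ≤ (1 / 1024) ^ 3 := pow_le_pow_left₀ k0.le k1 3
    have e : tk ^ 4 = tk * tk ^ 3 := by ring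
    rw [e]; nlinarith
  have p3 : (tk + tl - ti - tj) ^ 2 ≤ 1 / 4 := by nlinarith
  have p4 : (tk - tl) * (tk + tl - ti - tj) ^ 2 ≤ tk * (1 / 4) :=
    mul_le_mul (by linarith) p3 (sq_nonneg _) k0.le
  unfold num
  linarith

theorem gap_lo {d t X n : ℝ} (ht : 0 < t) (hd0 : t / 2 ≤ d) (hd : d ≤ 2 * t) (hX : 0 ≤ X)
    (hn : t * X ≤ n) : X / 2 ≤ d⁻¹ * n := by
  have hd1 : 0 < d := by linarith
  rw [inv_mul_eq_div, le_div_iff₀ hd1]
  nlinarith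

theorem gap_hi {d t n : ℝ} (ht : 0 < t) (hd0 : t / 2 ≤ d) (hn : n ≤ t / 2) : d⁻¹ * n ≤ 1 := by
  have hd1 : 0 < d := by linarith
  rw [inv_mul_eq_div, div_le_one hd1]
  linarith

theorem pow_split {D t A B X Y : ℝ} (ht : 0 < t) (hD0 : 0 ≤ D) (hA : 0 ≤ A) (hB : 0 ≤ B)
    (hD : D ≤ 2 / t * (A + B)) (hX : A ^ 12 ≤ t ^ 12 * X) (hY : B ^ 12 ≤ t ^ 12 * Y) :
    D ^ 12 ≤ 2 ^ 23 * (X + Y) := by
  have h1 : D ^ 12 ≤ (2 / t * (A + B)) ^ 12 := pow_le_pow_left₀ hD0 hD 12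
  have h2 : (A + B) ^ 12 ≤ 2 ^ (12 - 1) * (A ^ 12 + B ^ 12) := add_pow_le hA hB 12
  have h3 : (A + B) ^ 12 ≤ 2 ^ 11 * (t ^ 12 * (X + Y)) := by
    norm_num at h2 ⊢
    linarith
  rw [mul_pow] at h1
  have h4 := mul_le_mul_of_nonneg_left h3 (by positivity : (0 : ℝ) ≤ (2 / t) ^ 12)
  have e : (2 / t) ^ 12 * (2 ^ 11 * (t ^ 12 * (X + Y))) = 2 ^ 23 * (X + Y) := by
    field_simp
  linarith

/-- different first levels -/
theorem num_lo1 {ti tj a b tk tl s s' m : ℝ} (i0 : 0 < ti) (i1 : ti ≤ 1 / 1024) (j0 : 0 < tj)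
    (j1 : tj ≤ ti ^ 2) (k0 : 0 < tk) (k1 : tk ≤ 1 / 1024) (l0 : 0 < tl) (l1 : tl ≤ tk ^ 2)
    (ha : |a| ≤ 1) (hb : |b| ≤ 1) (hs : |s| ≤ 1) (hs' : |s'| ≤ 1)
    (hm : (m = ti ∧ tk ≤ ti ^ 2) ∨ (m = tk ∧ ti ≤ tk ^ 2)) :
    tk * (m ^ 2 / 16) ≤ num ti tj a b tk tl s s' := by
  have j2 : tj ≤ ti / 1024 := by nlinarith
  have l2 : tl ≤ tk / 1024 := by nlinarith
  have g1 := (abs_le.1 (GG_le i0.le (by linarith) j0.le (by linarith) k0.le (by linarith) ha hb hs)).1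
  have g2 := (abs_le.1 (GG_le i0.le (by linarith) j0.le (by linarith) l0.le (by linarith) ha hb hs')).2
  have p1 : tl ^ 4 ≤ tk ^ 4 := pow_le_pow_left₀ l0.le (by linarith) 4
  have hkm : tk ≤ m := by
    rcases hm with ⟨h, h'⟩ | ⟨h, h'⟩
    · rw [h]; nlinarith
    · rw [h]
  have p3 : m ^ 2 / 4 ≤ (tk + tl - ti - tj) ^ 2 := by
    rcases hm with ⟨h, h'⟩ | ⟨h, h'⟩
    · have : tk ≤ ti / 1024 := by nlinarith
      rw [h]; nlinarith
    · have : ti ≤ tk / 1024 := by nlinarith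
      rw [h]; nlinarith
  have p4 : tk / 2 * (m ^ 2 / 4) ≤ (tk - tl) * (tk + tl - ti - tj) ^ 2 :=
    mul_le_mul (by linarith) p3 (by positivity) (by linarith)
  have p5 : tk ^ 2 ≤ m ^ 2 := pow_le_pow_left₀ k0.le hkm 2
  have p6 : tk ^ 4 ≤ tk * (m ^ 2 / 32) := by
    have e : tk ^ 4 = tk * (tk * tk ^ 2) := by ring
    rw [e]
    apply mul_le_mul_of_nonneg_left _ k0.le
    nlinarith [sq_nonneg tk]
  unfold num
  linarith

/-- same first level, different second levels -/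
theorem num_lo2 {ti tj a b tl s s' m : ℝ} (i0 : 0 < ti) (i1 : ti ≤ 1 / 1024) (j0 : 0 < tj)
    (j1 : tj ≤ ti ^ 2) (l0 : 0 < tl) (l1 : tl ≤ ti ^ 2)
    (ha : |a| ≤ 1) (hb : |b| ≤ 1) (hs' : |s'| ≤ 1)
    (hm : (m = tj ∧ tl ≤ tj ^ 2) ∨ (m = tl ∧ tj ≤ tl ^ 2)) :
    ti * (m ^ 2 / 16 + ti ^ 4 * (s - a) ^ 2 / 2) ≤ num ti tj a b ti tl s s' := by
  have j2 : tj ≤ ti / 1024 := by nlinarith
  have l2 : tl ≤ ti / 1024 := by nlinarith
  have g2 := (abs_le.1 (GG_le i0.le (by linarith) j0.le (by linarith) l0.le (by linarith) ha hb hs')).2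
  have hlm : tl ≤ m := by
    rcases hm with ⟨h, h'⟩ | ⟨h, h'⟩
    · rw [h]; nlinarith
    · rw [h]
  have p3 : m ^ 2 / 4 ≤ (ti + tl - ti - tj) ^ 2 := by
    rcases hm with ⟨h, h'⟩ | ⟨h, h'⟩
    · have : tl ≤ tj / 1024 := by nlinarith
      rw [h]; nlinarith
    · have : tj ≤ tl / 1024 := by nlinarith
      rw [h]; nlinarith
  have p4 : ti / 2 * (m ^ 2 / 4) ≤ (ti - tl) * (ti + tl - ti - tj) ^ 2 :=
    mul_le_mul (by linarith) p3 (by positivity) (by linarith)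
  have p5 : tl ^ 2 ≤ m ^ 2 := pow_le_pow_left₀ l0.le hlm 2
  have p6 : tl ^ 4 ≤ ti * (m ^ 2 / 16) := by
    have e : tl ^ 4 = tl ^ 2 * tl ^ 2 := by ring
    have e' : ti * (m ^ 2 / 16) = ti / 16 * m ^ 2 := by ring
    rw [e, e']
    exact mul_le_mul (by nlinarith) p5 (by positivity) (by positivity)
  have p7 : ti / 2 * (ti ^ 4 * (s - a) ^ 2) ≤ (ti - tj) * (ti ^ 4 * (s - a) ^ 2) :=
    mul_le_mul_of_nonneg_right (by linarith) (by positivity)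
  have e : GG ti tj a b ti s = (ti - tj) * (ti ^ 4 * (s - a) ^ 2) := by unfold GG; ring
  unfold num
  rw [e]
  linarith

theorem num_lo3 {ti tj a b s s' : ℝ} (i0 : 0 < ti) (i1 : ti ≤ 1 / 1024)
    (j1 : tj ≤ ti ^ 2) :
    ti * (tj ^ 4 * (s' - b) ^ 2 / 2 + ti ^ 4 * (s - a) ^ 2 / 2) ≤ num ti tj a b ti tj s s' := by
  have j2 : tj ≤ ti / 1024 := by nlinarith
  have e : num ti tj a b ti tj s s'
      = (ti - tj) * (tj ^ 4 * (s' - b) ^ 2 + ti ^ 4 * (s - a) ^ 2) := by unfold num GG; ring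
  have p7 : ti / 2 * (tj ^ 4 * (s' - b) ^ 2 + ti ^ 4 * (s - a) ^ 2)
      ≤ (ti - tj) * (tj ^ 4 * (s' - b) ^ 2 + ti ^ 4 * (s - a) ^ 2) :=
    mul_le_mul_of_nonneg_right (by linarith) (by positivity)
  rw [e]
  linarith

theorem pp_sub {t tj tl : ℝ} (u v u' v' : ℝ × V) (hd : dd t tj ≠ 0) (hd' : dd t tl ≠ 0) :
    pp t tj u v - pp t tl u' v' = (dd t tj)⁻¹ •
      ((pt t u - pt t u') - (pt tj v - pt tl v') + (dd t tl - dd t tj) • pp t tl u' v') := by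
  have e : pt t u' - pt tl v' = dd t tl • pp t tl u' v' := by
    unfold pp; rw [smul_smul, mul_inv_cancel₀ hd', one_smul]
  have e2 : pp t tl u' v' = (dd t tj)⁻¹ • (dd t tj • pp t tl u' v') := by
    rw [smul_smul, inv_mul_cancel₀ hd, one_smul]
  conv_lhs => rw [e2]
  rw [sub_smul, ← e]
  conv_lhs => rw [pp]
  rw [← smul_sub]
  congr 1
  abel

theorem gap_main (τ : ℕ → ℝ) (h0 : ∀ j, 0 < τ j) (h1 : ∀ j, τ j ≤ 1 / 1024)
    (h2 : ∀ j k, j < k → τ k ≤ τ j ^ 2) (Γ : ℕ → Set (ℝ × V)) (C : ℝ) (hC : 0 ≤ C)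
    (hok : ∀ j, ∀ u ∈ Γ j, Ok (τ j) u)
    (hH : ∀ j, ∀ u ∈ Γ j, ∀ v ∈ Γ j,
      ‖pt (τ j) u - pt (τ j) v‖ ^ 12 ≤ C * τ j ^ 16 * (v.1 - u.1) ^ 2)
    {i j k l : ℕ} (hij : i < j) (hkl : k < l) {u v u' v' : ℝ × V} (hu : u ∈ Γ i) (hv : v ∈ Γ j)
    (hu' : u' ∈ Γ k) (hv' : v' ∈ Γ l) :
    ∃ g : ℝ, ell (τ i) (τ j) u.1 v.1 (pp (τ k) (τ l) u' v').2 = 1 - g ∧ 0 ≤ g ∧ g ≤ 1 ∧
      ‖pp (τ i) (τ j) u v - pp (τ k) (τ l) u' v'‖ ^ 12
        ≤ (2 ^ 25 * C + 2 ^ 28 * 12 ^ 12 + 32 * 40 ^ 12) * g := by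
  have dlo := dd_lo (h0 k) (by linarith [h1 k]) (h0 l).le (h2 k l hkl)
  have dhi := dd_hi (h0 k) (by linarith [h1 k]) (h0 l).le (h2 k l hkl)
  have dne : dd (τ k) (τ l) ≠ 0 := by
    have : 0 < dd (τ k) (τ l) := by linarith [h0 k]
    exact this.ne'
  have ou := hok _ _ hu
  have ov := hok _ _ hv
  have ou' := hok _ _ hu'
  have ov' := hok _ _ hv'
  set g := (dd (τ k) (τ l))⁻¹ * num (τ i) (τ j) u.1 v.1 (τ k) (τ l) u'.1 v'.1 with hg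
  have ghi : g ≤ 1 := gap_hi (h0 k) dlo (num_hi (h0 i) (h1 i) (h0 j) (h2 i j hij) (h0 k) (h1 k)
    (h0 l) (h2 k l hkl) ou.1 ov.1 ou'.1 ov'.1)
  suffices h : 0 ≤ g ∧ ‖pp (τ i) (τ j) u v - pp (τ k) (τ l) u' v'‖ ^ 12
        ≤ (2 ^ 25 * C + 2 ^ 28 * 12 ^ 12 + 32 * 40 ^ 12) * g from
    ⟨g, ell_pp _ _ _ _ _ _ dne, h.1, ghi, h.2⟩
  by_cases hik : i = k
  · subst hik
    have dlo' := dd_lo (h0 i) (by linarith [h1 i]) (h0 j).le (h2 i j hij)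
    have dne' : dd (τ i) (τ j) ≠ 0 := by
      have : 0 < dd (τ i) (τ j) := by linarith [h0 i]
      exact this.ne'
    have hA : ‖pt (τ i) u - pt (τ i) u'‖ ^ 12 ≤ τ i ^ 12 * (C * (τ i ^ 4 * (u'.1 - u.1) ^ 2)) :=
      (hH i u hu u' hu').trans (le_of_eq (by ring))
    have hp' := pp_norm (h0 i) (h1 i) (h0 l).le (h2 i l hkl) ou' ov'
    have X0 : 0 ≤ τ i ^ 4 * (u'.1 - u.1) ^ 2 := by positivity
    rw [pp_sub u v u' v' dne' dne]
    by_cases hjl : j = l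
    · subst hjl
      have glo := gap_lo (h0 i) dlo dhi (by positivity)
        (num_lo3 (a := u.1) (b := v.1) (s := u'.1) (s' := v'.1) (h0 i) (h1 i) (h2 i j hij))
      rw [← hg] at glo
      have Y0 : 0 ≤ τ j ^ 4 * (v'.1 - v.1) ^ 2 := by positivity
      have hB : ‖pt (τ j) v - pt (τ j) v'‖ ^ 12
          ≤ τ i ^ 12 * (C * (τ j ^ 4 * (v'.1 - v.1) ^ 2)) := by
        refine (hH j v hv v' hv').trans ?_
        have a1 : τ j ≤ τ i := by nlinarith [h2 i j hij, h0 i, h1 i]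
        have a2 : τ j ^ 12 ≤ τ i ^ 12 := pow_le_pow_left₀ (h0 j).le a1 12
        have a3 := mul_le_mul_of_nonneg_right a2 (mul_nonneg hC Y0)
        refine le_trans (le_of_eq ?_) a3
        ring
      have hD := inv_norm_le (h0 i) dlo'
        ((pt (τ i) u - pt (τ i) u') - (pt (τ j) v - pt (τ j) v')
          + (dd (τ i) (τ j) - dd (τ i) (τ j)) • pp (τ i) (τ j) u' v')
        (R := ‖pt (τ i) u - pt (τ i) u'‖ + ‖pt (τ j) v - pt (τ j) v'‖)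
        (by rw [sub_self, zero_smul, add_zero]; exact norm_sub_le _ _)
      have hfin := pow_split (h0 i) (norm_nonneg _) (norm_nonneg _) (norm_nonneg _) hD hA hB
      have g0 : 0 ≤ g := by linarith
      refine ⟨g0, hfin.trans ?_⟩
      have a4 : τ i ^ 4 * (u'.1 - u.1) ^ 2 + τ j ^ 4 * (v'.1 - v.1) ^ 2 ≤ 4 * g := by linarith
      have a5 := mul_le_mul_of_nonneg_left a4 hC
      nlinarith
    · obtain ⟨m, hm, hjm, hlm, hmi⟩ : ∃ m : ℝ, ((m = τ j ∧ τ l ≤ τ j ^ 2) ∨ (m = τ l ∧ τ j ≤ τ l ^ 2))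
          ∧ τ j ≤ m ∧ τ l ≤ m ∧ m ≤ τ i ^ 2 := by
        rcases lt_or_gt_of_ne hjl with h | h
        · exact ⟨τ j, Or.inl ⟨rfl, h2 j l h⟩, le_rfl, by nlinarith [h2 j l h, h0 j, h1 j],
            h2 i j hij⟩
        · exact ⟨τ l, Or.inr ⟨rfl, h2 l j h⟩, by nlinarith [h2 l j h, h0 l, h1 l], le_rfl,
            h2 i l hkl⟩
      have m0 : 0 < m := lt_of_lt_of_le (h0 j) hjm
      have glo := gap_lo (h0 i) dlo dhi (by positivity)
        (num_lo2 (s := u'.1) (h0 i) (h1 i) (h0 j) (h2 i j hij) (h0 l) (h2 i l hkl)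
          ou.1 ov.1 ov'.1 hm)
      rw [← hg] at glo
      have b1 := pt_norm (h0 j).le (by linarith [h1 j]) ov
      have b2 := pt_norm (h0 l).le (by linarith [h1 l]) ov'
      have ii : τ i ^ 2 ≤ τ i := by nlinarith [h0 i, h1 i]
      have b3 := abs_le.1 (dd_inf (h0 i) (by linarith [h1 i]) (h0 j).le (by linarith))
      have b4 := abs_le.1 (dd_inf (h0 i) (by linarith [h1 i]) (h0 l).le (by linarith))
      have b5 : |dd (τ i) (τ l) - dd (τ i) (τ j)| ≤ 4 * m := by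
        rw [abs_le]; constructor <;> linarith [b3.1, b3.2, b4.1, b4.2]
      have b6 : ‖(dd (τ i) (τ l) - dd (τ i) (τ j)) • pp (τ i) (τ l) u' v'‖ ≤ 8 * m := by
        rw [norm_smul, Real.norm_eq_abs]
        have := mul_le_mul b5 hp' (norm_nonneg _) (by positivity)
        linarith
      have hD := inv_norm_le (h0 i) dlo'
        ((pt (τ i) u - pt (τ i) u') - (pt (τ j) v - pt (τ l) v')
          + (dd (τ i) (τ l) - dd (τ i) (τ j)) • pp (τ i) (τ l) u' v')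
        (R := ‖pt (τ i) u - pt (τ i) u'‖ + 12 * m)
        (by
          have c1 := norm_add_le ((pt (τ i) u - pt (τ i) u') - (pt (τ j) v - pt (τ l) v'))
            ((dd (τ i) (τ l) - dd (τ i) (τ j)) • pp (τ i) (τ l) u' v')
          have c2 := norm_sub_le (pt (τ i) u - pt (τ i) u') (pt (τ j) v - pt (τ l) v')
          have c3 := norm_sub_le (pt (τ j) v) (pt (τ l) v')
          linarith)
      have hB : (12 * m) ^ 12 ≤ τ i ^ 12 * (12 ^ 12 * m ^ 2) := by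
        have a1 : m ^ 6 ≤ (τ i ^ 2) ^ 6 := pow_le_pow_left₀ m0.le hmi 6
        have a2 : m ^ 4 ≤ 1 := pow_le_one₀ m0.le (by linarith [h1 i])
        have a3 : m ^ 6 * m ^ 4 ≤ (τ i ^ 2) ^ 6 * 1 :=
          mul_le_mul a1 a2 (by positivity) (by positivity)
        have a4 := mul_le_mul_of_nonneg_right a3 (by positivity : (0 : ℝ) ≤ 12 ^ 12 * m ^ 2)
        refine le_trans (le_of_eq ?_) (a4.trans (le_of_eq ?_)) <;> ring
      have hfin := pow_split (h0 i) (norm_nonneg _) (norm_nonneg _) (by positivity) hD hA hB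
      have mm : 0 ≤ m ^ 2 := by positivity
      have g0 : 0 ≤ g := by linarith
      refine ⟨g0, hfin.trans ?_⟩
      have a4 : τ i ^ 4 * (u'.1 - u.1) ^ 2 ≤ 4 * g := by linarith
      have a5 := mul_le_mul_of_nonneg_left a4 hC
      have a6 : m ^ 2 ≤ 32 * g := by linarith
      nlinarith
  · obtain ⟨m, hm, him, hkm, hm1⟩ : ∃ m : ℝ, ((m = τ i ∧ τ k ≤ τ i ^ 2) ∨ (m = τ k ∧ τ i ≤ τ k ^ 2))
          ∧ τ i ≤ m ∧ τ k ≤ m ∧ m ≤ 1 := by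
      rcases lt_or_gt_of_ne hik with h | h
      · exact ⟨τ i, Or.inl ⟨rfl, h2 i k h⟩, le_rfl, by nlinarith [h2 i k h, h0 i, h1 i],
          by linarith [h1 i]⟩
      · exact ⟨τ k, Or.inr ⟨rfl, h2 k i h⟩, by nlinarith [h2 k i h, h0 k, h1 k], le_rfl,
          by linarith [h1 k]⟩
    have m0 : 0 < m := lt_of_lt_of_le (h0 i) him
    have glo := gap_lo (h0 k) dlo dhi (by positivity)
      (num_lo1 (h0 i) (h1 i) (h0 j) (h2 i j hij) (h0 k) (h1 k) (h0 l) (h2 k l hkl)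
        ou.1 ov.1 ou'.1 ov'.1 hm)
    rw [← hg] at glo
    have n1 := pp_near (h0 i) (by linarith [h1 i]) (h0 j).le (h2 i j hij) ou ov
    have n2 := pp_near (h0 k) (by linarith [h1 k]) (h0 l).le (h2 k l hkl) ou' ov'
    have n3 : ‖pp (τ i) (τ j) u v - pp (τ k) (τ l) u' v'‖ ≤ 40 * m := by
      have := norm_sub_le (pp (τ i) (τ j) u v - eW) (pp (τ k) (τ l) u' v' - eW)
      rw [sub_sub_sub_cancel_right] at this
      linarith
    have n4 := pow_le_pow_left₀ (norm_nonneg _) n3 12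
    have n5 : m ^ 12 ≤ m ^ 2 := pow_le_pow_of_le_one m0.le hm1 (by norm_num)
    have mm : 0 ≤ m ^ 2 := by positivity
    have g0 : 0 ≤ g := by linarith
    refine ⟨g0, n4.trans ?_⟩
    rw [mul_pow]
    have a6 : m ^ 12 ≤ 32 * g := by linarith
    have a7 := mul_nonneg hC g0
    nlinarith

end Pool.Agent.H.MP_0e6637_co
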