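import Mathlib
import Pool.Agent.H.MP_0e6637_co.Gap

set_option autoImplicit false

namespace Pool.Agent.H.MP_0e6637_co

theorem Fq_swap (c : ℝ) (p x : W) (L : W → ℝ) :
    Fq c p.swap (fun y => L y.swap) x.swap = Fq c p L x := by
  unfold Fq
  simp only [Prod.swap_swap]
  have e : x.swap - L x • p.swap = (x - L x • p).swap := by
    ext <;> simp
  rw [e, Q_swap]

theorem norm_swap' (x : W) : ‖x.swap‖ = ‖x‖ := by
  rw [Prod.norm_def, Prod.norm_def, max_comm]; rfl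

theorem exists_N0 {J : Type} [Nonempty J] (P : J → W) (L : J → W → ℝ) (c : ℝ) (c0 : 0 < c)
    (c1 : c ≤ 1) (Pn : ∀ q, ‖P q‖ ≤ 2) (Lb : ∀ q x, |L q x| ≤ 20 * ‖x‖)
    (Ll : ∀ q, IsLinearMap ℝ (L q)) (LP : ∀ q, L q (P q) = 1)
    (same : ∀ q q', Fq c (P q) (L q) (P q') ≤ 1)
    (cross : ∀ q q', Fq c (P q) (L q) (P q').swap ≤ 1) :
    ∃ N : W → ℝ, (∀ x, N x = 0 → x = 0) ∧ (∀ x y, N (x + y) ≤ N x + N y) ∧
      (∀ (t : ℝ) x, N (t • x) = |t| * N x) ∧
      (∀ x y, N x = 1 → N y = 1 → x ≠ y → N (x + y) ≠ 2) ∧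
      ∀ q, N (P q) = 1 ∧ N (P q).swap = 1 := by
  have Ll' : ∀ q, IsLinearMap ℝ (fun y : W => L q y.swap) := fun q =>
    ⟨fun x y => (Ll q).map_add x.swap y.swap, fun t x => (Ll q).map_smul t x.swap⟩
  have Pn' : ∀ q, ‖(P q).swap‖ ≤ 2 := fun q => by rw [norm_swap']; exact Pn q
  have Lb' : ∀ q (x : W), |L q x.swap| ≤ 20 * ‖x‖ := fun q x => by
    have := Lb q x.swap
    rw [norm_swap'] at this
    exact this
  let F : J ⊕ J → W → ℝ := Sum.elim (fun q => Fq c (P q) (L q))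
    (fun q => Fq c (P q).swap (fun y => L q y.swap))
  have lo : ∀ q x, c / 4 ^ 12 * ‖x‖ ^ 12 ≤ F q x := by
    rintro (q | q) x
    · exact Fq_lo c0.le c1 (P q) (Pn q) (L q) x
    · exact Fq_lo c0.le c1 (P q).swap (Pn' q) (fun y => L q y.swap) x
  have hi : ∀ q x, F q x ≤ (20 ^ 12 + 16 * 41 ^ 12) * ‖x‖ ^ 12 := by
    rintro (q | q) x
    · exact Fq_hi c0.le c1 (P q) (Pn q) (L q) x (Lb q x)
    · exact Fq_hi c0.le c1 (P q).swap (Pn' q) (fun y => L q y.swap) x (Lb' q x)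
  have gd : ∀ q, Good (F q) := by
    rintro (q | q)
    · exact good_Fq c0.le (P q) (L q) (Ll q)
    · exact good_Fq c0.le (P q).swap (fun y => L q y.swap) (Ll' q)
  have cp : 0 < c / 4 ^ 12 := by positivity
  obtain ⟨N, n1, n2, n3, n4, n5⟩ := exists_norm F _ _ cp lo hi gd
  refine ⟨N, n1, n2, n3, n4, fun q => ⟨?_, ?_⟩⟩
  · refine n5 _ ?_ ⟨Sum.inl q, Fq_self c (P q) (L q) (LP q)⟩
    rintro (q' | q')
    · exact same q' q
    · have := cross q' q
      rw [← Fq_swap, Prod.swap_swap] at this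
      exact this
  · refine n5 _ ?_ ⟨Sum.inr q, Fq_self c (P q).swap (fun y => L q y.swap) (LP q)⟩
    rintro (q' | q')
    · exact cross q' q
    · have := same q' q
      rw [← Fq_swap] at this
      exact this

theorem exists_c (K : ℝ) (K0 : 0 ≤ K) :
    ∃ c : ℝ, 0 < c ∧ c ≤ 1 ∧ c * (16 * 2 ^ 11 * (K + 2 ^ 12)) ≤ 1 :=
  ⟨(16 * 2 ^ 11 * (K + 2 ^ 12))⁻¹, by positivity, inv_le_one_of_one_le₀ (by nlinarith),
    le_of_eq (inv_mul_cancel₀ (by positivity))⟩

theorem exists_N (τ : ℕ → ℝ) (h0 : ∀ j, 0 < τ j) (h1 : ∀ j, τ j ≤ 1 / 1024)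
    (h2 : ∀ j k, j < k → τ k ≤ τ j ^ 2) (Γ : ℕ → Set (ℝ × V)) (C : ℝ) (hC : 0 ≤ C)
    (hne : ∀ j, (Γ j).Nonempty) (hok : ∀ j, ∀ u ∈ Γ j, Ok (τ j) u)
    (hH : ∀ j, ∀ u ∈ Γ j, ∀ v ∈ Γ j,
      ‖pt (τ j) u - pt (τ j) v‖ ^ 12 ≤ C * τ j ^ 16 * (v.1 - u.1) ^ 2) :
    ∃ N : W → ℝ, (∀ x, N x = 0 → x = 0) ∧ (∀ x y, N (x + y) ≤ N x + N y) ∧
      (∀ (t : ℝ) x, N (t • x) = |t| * N x) ∧
      (∀ x y, N x = 1 → N y = 1 → x ≠ y → N (x + y) ≠ 2) ∧
      ∀ i j, i < j → ∀ u ∈ Γ i, ∀ v ∈ Γ j, N (pt (τ i) u - pt (τ j) v) = dd (τ i) (τ j) ∧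
        N (pt (τ i) u - pt (τ j) v).swap = dd (τ i) (τ j) := by
  have gm := fun i j k l hij hkl u v u' v' hu hv hu' hv' =>
    @gap_main τ h0 h1 h2 Γ C hC hok hH i j k l hij hkl u v u' v' hu hv hu' hv'
  have K0 : (0 : ℝ) ≤ 2 ^ 25 * C + 2 ^ 28 * 12 ^ 12 + 32 * 40 ^ 12 := by positivity
  generalize (2 ^ 25 * C + 2 ^ 28 * 12 ^ 12 + 32 * 40 ^ 12 : ℝ) = K at gm K0
  obtain ⟨c, c0, c1, cK⟩ := exists_c K K0
  let J := {q : ℕ × ℕ × (ℝ × V) × (ℝ × V) // q.1 < q.2.1 ∧ q.2.2.1 ∈ Γ q.1 ∧ q.2.2.2 ∈ Γ q.2.1}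
  let P : J → W := fun q => pp (τ q.1.1) (τ q.1.2.1) q.1.2.2.1 q.1.2.2.2
  let L : J → W → ℝ := fun q x => ell (τ q.1.1) (τ q.1.2.1) q.1.2.2.1.1 q.1.2.2.2.1 x.2
  have Pn : ∀ q, ‖P q‖ ≤ 2 := fun q =>
    pp_norm (h0 _) (h1 _) (h0 _).le (h2 _ _ q.2.1) (hok _ _ q.2.2.1) (hok _ _ q.2.2.2)
  have P1 : ∀ q, ‖(P q).1‖ ≤ 1 / 40 := fun q =>
    pp_fst (h0 _) (h1 _) (h0 _).le (h2 _ _ q.2.1) (hok _ _ q.2.2.1) (hok _ _ q.2.2.2)
  have Lb : ∀ q x, |L q x| ≤ 20 * ‖x.2‖ := fun q x =>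
    ell_le (h0 _).le (by linarith [h1 q.1.1]) (h0 _).le (by linarith [h1 q.1.2.1])
      (hok _ _ q.2.2.1).1 (hok _ _ q.2.2.2).1 _
  have Ll : ∀ q, IsLinearMap ℝ (L q) := fun q =>
    ⟨fun x y => (ell_lin _ _ _ _).map_add x.2 y.2, fun t x => (ell_lin _ _ _ _).map_smul t x.2⟩
  have dpos : ∀ i j, i < j → 0 < dd (τ i) (τ j) := fun i j h => by
    linarith [dd_lo (h0 i) (by linarith [h1 i]) (h0 j).le (h2 i j h), h0 i]
  have LP : ∀ q, L q (P q) = 1 := fun q => by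
    have := ell_pp (τ q.1.1) (τ q.1.2.1) q.1.2.2.1.1 q.1.2.2.2.1 q.1.2.2.1 q.1.2.2.2
      (dpos _ _ q.2.1).ne'
    rw [num_self, mul_zero, sub_zero] at this
    exact this
  have same : ∀ q q', Fq c (P q) (L q) (P q') ≤ 1 := fun q q' => by
    obtain ⟨g, e, g0, g1, hD⟩ := gm _ _ _ _ q.2.1 q'.2.1 _ _ _ _ q.2.2.1 q.2.2.2
      q'.2.2.1 q'.2.2.2
    exact Fq_close c0.le K0 cK _ _ (Pn q) _ g e g0 g1 hD
  have cross : ∀ q q', Fq c (P q) (L q) (P q').swap ≤ 1 := fun q q' => by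
    refine Fq_far c0.le K0 cK _ _ (Pn q) (by rw [norm_swap']; exact Pn q') _ ?_
    have := Lb q (P q').swap
    have h := P1 q'
    simp only [Prod.snd_swap] at this
    linarith
  have hJ : Nonempty J := ⟨⟨(0, 1, (hne 0).some, (hne 1).some), by norm_num, (hne 0).some_mem,
    (hne 1).some_mem⟩⟩
  obtain ⟨N, n1, n2, n3, n4, n5⟩ := exists_N0 P L c c0 c1 Pn
    (fun q x => by linarith [Lb q x, norm_snd_le x]) Ll LP same cross
  refine ⟨N, n1, n2, n3, n4, fun i j hij u hu v hv => ?_⟩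
  let q : J := ⟨(i, j, u, v), hij, hu, hv⟩
  have e : pt (τ i) u - pt (τ j) v = dd (τ i) (τ j) • P q := by
    simp only [P, q, pp]
    rw [smul_smul, mul_inv_cancel₀ (dpos i j hij).ne', one_smul]
  have e2 : (dd (τ i) (τ j) • P q).swap = dd (τ i) (τ j) • (P q).swap := rfl
  rw [e, e2, n3, n3, (n5 q).1, (n5 q).2, abs_of_pos (dpos i j hij), mul_one]
  exact ⟨rfl, rfl⟩

/-- the colouring argument -/
theorem colour_arg (G : ℕ → Set W) (z0 z1 : ℕ → W) (m : ℕ → ℕ)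
    (ha0 : ∀ j k, j < k → ∃ a ∈ G j, ∃ b ∈ G k, b.swap - a = z0 j)
    (ha1 : ∀ j k, j < k → ∃ a ∈ G j, ∃ b ∈ G k, b.swap - a = z1 j)
    (hb : ∀ j, ∃ a ∈ G j, a.swap - a = z0 j + (m j : ℝ) • (z1 j - z0 j))
    (c : W → Fin 2) (hR : ∀ p, ∃ j, ∀ a ∈ G j, c (p + a) = 0)
    (hB : ∀ q, ∃ k, ∀ a ∈ G k, c (q + a.swap) = 1) : False := by
  classical
  let R : ℕ → W → Prop := fun j p => ∀ a ∈ G j, c (p + a) = 0
  let B : ℕ → W → Prop := fun j q => ∀ a ∈ G j, c (q + a.swap) = 1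
  have hex : ∃ j, (∃ p, R j p) ∨ ∃ q, B j q := by
    obtain ⟨j, hj⟩ := hR 0
    exact ⟨j, Or.inl ⟨0, hj⟩⟩
  set j := Nat.find hex with hj
  have hmin : ∀ k, ((∃ p, R k p) ∨ ∃ q, B k q) → j ≤ k := fun k hk => Nat.find_min' hex hk
  have s1 : ∀ z : W, (∀ k, j < k → ∃ a ∈ G j, ∃ b ∈ G k, b.swap - a = z) →
      ∀ p, R j p → B j (p - z) := by
    intro z hz p hp
    obtain ⟨k, hk⟩ := hB (p - z)
    rcases (hmin k (Or.inr ⟨_, hk⟩)).eq_or_lt with h | h
    · rw [h]; exact hk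
    · obtain ⟨a, ha, b, hb', e⟩ := hz k h
      have h1 := hp a ha
      have h2 := hk b hb'
      have e2 : p - z + b.swap = p + a := by rw [← e]; abel
      rw [e2, h1] at h2
      exact absurd h2 (by decide)
  have s2 : ∀ q, B j q → R j (q - (z0 j).swap) := by
    intro q hq
    obtain ⟨k, hk⟩ := hR (q - (z0 j).swap)
    rcases (hmin k (Or.inl ⟨_, hk⟩)).eq_or_lt with h | h
    · have : R k (q - (z0 j).swap) := hk
      rw [← h] at this
      exact this
    · obtain ⟨a, ha, b, hb', e⟩ := ha0 j k h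
      have h1 := hq a ha
      have h2 := hk b hb'
      have e2 : q - (z0 j).swap + b = q + a.swap := by
        rw [← e]
        ext <;> simp <;> ring
      rw [e2, h1] at h2
      exact absurd h2 (by decide)
  obtain ⟨p, hp⟩ : ∃ p, R j p := by
    rcases Nat.find_spec hex with h | ⟨q, hq⟩
    · exact h
    · exact ⟨_, s2 q hq⟩
  have it : ∀ z : W, (∀ k, j < k → ∃ a ∈ G j, ∃ b ∈ G k, b.swap - a = z) →
      ∀ n : ℕ, R j (p - (n : ℝ) • z - (n : ℝ) • (z0 j).swap) := by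
    intro z hz n
    induction n with
    | zero => simpa using hp
    | succ n ih =>
      have := s2 _ (s1 z hz _ ih)
      have e : p - ((n + 1 : ℕ) : ℝ) • z - ((n + 1 : ℕ) : ℝ) • (z0 j).swap
          = p - (n : ℝ) • z - (n : ℝ) • (z0 j).swap - z - (z0 j).swap := by
        push_cast
        rw [add_smul, add_smul, one_smul, one_smul]; abel
      rw [e]; exact this
  obtain ⟨a, ha, e⟩ := hb j
  have h1 := it (z0 j) (ha0 j) (m j) a ha
  have h2 := s1 (z0 j) (ha0 j) _ (it (z1 j) (ha1 j) (m j)) a ha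
  have e2 : p - (m j : ℝ) • z1 j - (m j : ℝ) • (z0 j).swap - z0 j + a.swap
      = p - (m j : ℝ) • z0 j - (m j : ℝ) • (z0 j).swap + a := by
    have : a.swap = a + (z0 j + (m j : ℝ) • (z1 j - z0 j)) := by rw [← e]; abel
    rw [this, smul_sub]; abel
  rw [e2, h1] at h2
  exact absurd h2 (by decide)

def mm (j : ℕ) : ℕ := 1024 ^ (2 ^ j)

noncomputable def tau (j : ℕ) : ℝ := (mm j : ℝ)⁻¹

theorem mm_pos (j : ℕ) : (0 : ℝ) < mm j := by unfold mm; positivity

theorem tau_pos (j : ℕ) : 0 < tau j := inv_pos.2 (mm_pos j)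

theorem mm_tau (j : ℕ) : (mm j : ℝ) * tau j = 1 := mul_inv_cancel₀ (mm_pos j).ne'

theorem tau_le (j : ℕ) : tau j ≤ 1 / 1024 := by
  unfold tau
  rw [one_div]
  apply inv_anti₀ (by norm_num)
  have : 1024 ≤ mm j := Nat.le_self_pow (by positivity) 1024
  exact_mod_cast this

theorem tau_sq (j k : ℕ) (h : j < k) : tau k ≤ tau j ^ 2 := by
  unfold tau
  rw [inv_pow]
  apply inv_anti₀ (pow_pos (mm_pos j) 2)
  have : mm j ^ 2 ≤ mm k := by
    unfold mm
    rw [← pow_mul, ← pow_succ]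
    exact Nat.pow_le_pow_right (by norm_num) (Nat.pow_le_pow_right (by norm_num) h)
  exact_mod_cast this

noncomputable def zeta (j : ℕ) : V := feat (tau j) 1 - feat (tau j) (-1)

noncomputable def zK (j : ℕ) (σ : ℝ) : V :=
  ((1 - σ) / 2 * tau j) • (feat (tau j) 1 - (mm j : ℝ) • zeta j)

noncomputable def nA (j : ℕ) (σ : ℝ) (k : ℕ) : ℝ × V :=
  (σ * (1 - tau k ^ 2), feat (tau k) (σ * tau j) - zK j σ)

noncomputable def nB (i : ℕ) (σ : ℝ) (j : ℕ) : ℝ × V :=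
  (σ * tau i, feat (tau i) (σ * (1 - tau j ^ 2)) - feat (tau i) σ)

noncomputable def nS (j : ℕ) : ℝ × V :=
  (0, feat (tau j) 0 - feat (tau j) 1 + (mm j : ℝ) • zeta j)

def Gam (j : ℕ) : Set (ℝ × V) :=
  {u | (∃ σ : ℝ, (σ = 1 ∨ σ = -1) ∧ ∃ k, j < k ∧ u = nA j σ k) ∨
    (∃ σ : ℝ, (σ = 1 ∨ σ = -1) ∧ ∃ i, i < j ∧ u = nB i σ j) ∨ u = nS j}

theorem mzeta (j : ℕ) : ‖(mm j : ℝ) • zeta j‖ ≤ 4 * tau j ^ 3 := by
  have h := feat_lip (s := 1) (s' := -1) (tau_pos j).le (by linarith [tau_le j]) (by simp) (by simp)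
  rw [norm_smul, Real.norm_eq_abs, abs_of_pos (mm_pos j)]
  have h2 := mul_le_mul_of_nonneg_left h (mm_pos j).le
  refine h2.trans (le_of_eq ?_)
  have e : |(1 : ℝ) - -1| = 2 := by norm_num
  rw [e]
  have := mm_tau j
  calc (mm j : ℝ) * (2 * tau j ^ 4 * 2) = 4 * tau j ^ 3 * ((mm j : ℝ) * tau j) := by ring
    _ = 4 * tau j ^ 3 := by rw [this, mul_one]

theorem zK_le (j : ℕ) {σ : ℝ} (hσ : σ = 1 ∨ σ = -1) : ‖zK j σ‖ ≤ 3 * tau j ^ 2 := by
  have t0 := tau_pos j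
  have t1 := tau_le j
  rcases hσ with rfl | rfl
  · simp [zK]; positivity
  · have h1 := feat_norm (s := 1) t0.le (by linarith) (by simp)
    have h2 := mzeta j
    have h3 := norm_sub_le (feat (tau j) 1) ((mm j : ℝ) • zeta j)
    have e : (1 - -1) / 2 * tau j = tau j := by ring
    unfold zK
    rw [e, norm_smul, Real.norm_eq_abs, abs_of_pos t0]
    have h4 : tau j ^ 3 ≤ tau j / 4 := by nlinarith [sq_nonneg (tau j)]
    have h5 : ‖feat (tau j) 1 - (mm j : ℝ) • zeta j‖ ≤ 3 * tau j := by linarith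
    have := mul_le_mul_of_nonneg_left h5 t0.le
    linarith

theorem abs_sig {σ x : ℝ} (hσ : σ = 1 ∨ σ = -1) : |σ * x| = |x| := by
  rcases hσ with rfl | rfl <;> simp

theorem gam_ok (j : ℕ) (u : ℝ × V) (hu : u ∈ Gam j) : Ok (tau j) u := by
  have t0 := tau_pos j
  have t1 := tau_le j
  rcases hu with ⟨σ, hσ, k, hk, rfl⟩ | ⟨σ, hσ, i, hi, rfl⟩ | rfl
  · have k0 := tau_pos k
    have k1 := tau_le k
    refine ⟨?_, ?_⟩
    · simp only [nA]
      rw [abs_sig hσ, abs_le]; constructor <;> nlinarith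
    · simp only [nA]
      have h1 := feat_norm (s := σ * tau j) k0.le (by linarith)
        (by rw [abs_sig hσ, abs_of_pos t0]; linarith)
      have h2 := zK_le j hσ
      have h3 := norm_sub_le (feat (tau k) (σ * tau j)) (zK j σ)
      have h4 := tau_sq j k hk
      linarith
  · have k0 := tau_pos i
    have k1 := tau_le i
    refine ⟨?_, ?_⟩
    · simp only [nB]
      rw [abs_sig hσ, abs_of_pos k0]; linarith
    · simp only [nB]
      have h1 := feat_lip (s := σ * (1 - tau j ^ 2)) (s' := σ) k0.le (by linarith)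
        (by rw [abs_sig hσ, abs_le]; constructor <;> nlinarith)
        (by rcases hσ with rfl | rfl <;> simp)
      have e : σ * (1 - tau j ^ 2) - σ = σ * (-(tau j ^ 2)) := by ring
      rw [e, abs_sig hσ, abs_neg, abs_of_nonneg (sq_nonneg _)] at h1
      have h2 : tau i ^ 4 ≤ 1 := pow_le_one₀ k0.le (by linarith)
      nlinarith [sq_nonneg (tau j)]
  · refine ⟨by simp [nS], ?_⟩
    simp only [nS]
    have h1 := feat_lip (s := 0) (s' := 1) t0.le (by linarith) (by simp) (by simp)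
    have h2 := mzeta j
    have h3 := norm_add_le (feat (tau j) 0 - feat (tau j) 1) ((mm j : ℝ) • zeta j)
    have e : |(0 : ℝ) - 1| = 1 := by norm_num
    rw [e] at h1
    have h4 : tau j ^ 3 ≤ tau j ^ 2 / 4 := by nlinarith [sq_nonneg (tau j)]
    have h5 : tau j ^ 4 ≤ tau j ^ 2 := pow_le_pow_of_le_one t0.le (by linarith) (by norm_num)
    linarith [sq_nonneg (tau j)]

theorem far_case (j : ℕ) (u v : ℝ × V) (hu : u ∈ Gam j) (hv : v ∈ Gam j)
    (h : tau j ^ 2 / 4 ≤ (v.1 - u.1) ^ 2) :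
    ‖pt (tau j) u - pt (tau j) v‖ ^ 12 ≤ (4 * 10 ^ 12) * tau j ^ 16 * (v.1 - u.1) ^ 2 := by
  have t0 := tau_pos j
  have t1 := tau_le j
  have h1 := pt_near t0.le (by linarith) (gam_ok j u hu)
  have h2 := pt_near t0.le (by linarith) (gam_ok j v hv)
  have h3 := norm_sub_le (pt (tau j) u - tau j • eW) (pt (tau j) v - tau j • eW)
  rw [sub_sub_sub_cancel_right] at h3
  have h4 : ‖pt (tau j) u - pt (tau j) v‖ ≤ 10 * tau j ^ 2 := by linarith
  refine (pow_le_pow_left₀ (norm_nonneg _) h4 12).trans ?_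
  have h5 : tau j ^ 24 ≤ tau j ^ 18 := pow_le_pow_of_le_one t0.le (by linarith) (by norm_num)
  have h6 := mul_le_mul_of_nonneg_left h (by positivity : (0 : ℝ) ≤ (4 * 10 ^ 12) * tau j ^ 16)
  have e1 : (10 * tau j ^ 2) ^ 12 = 10 ^ 12 * tau j ^ 24 := by ring
  have e2 : (4 * 10 ^ 12) * tau j ^ 16 * (tau j ^ 2 / 4) = 10 ^ 12 * tau j ^ 18 := by ring
  rw [e1]
  rw [e2] at h6
  linarith

theorem cluster_case (j : ℕ) {σ : ℝ} (hσ : σ = 1 ∨ σ = -1) {k l : ℕ} (hk : j < k) (hkl : k < l) :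
    ‖pt (tau j) (nA j σ k) - pt (tau j) (nA j σ l)‖ ^ 12
      ≤ (4 * 10 ^ 12) * tau j ^ 16 * ((nA j σ l).1 - (nA j σ k).1) ^ 2 := by
  have t0 := tau_pos j
  have t1 := tau_le j
  have k0 := tau_pos k
  have k1 := tau_le k
  have l0 := tau_pos l
  have l1 := tau_le l
  have kl := tau_sq k l hkl
  have jk := tau_sq j k hk
  have hs : |σ * tau j| ≤ 1 := by rw [abs_sig hσ, abs_of_pos t0]; linarith
  have l2 : tau l ≤ tau k / 2 := by nlinarith
  have l3 : tau l ^ 2 ≤ tau k ^ 2 / 2 := by nlinarith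
  have h4 : ‖pt (tau j) (nA j σ k) - pt (tau j) (nA j σ l)‖ ≤ 4 * tau k := by
    rw [Prod.norm_def]
    apply max_le
    · have e : (pt (tau j) (nA j σ k) - pt (tau j) (nA j σ l)).1
          = feat (tau k) (σ * tau j) - feat (tau l) (σ * tau j) := by simp [pt, nA]
      rw [e]
      have a1 := feat_norm k0.le (by linarith) hs
      have a2 := feat_norm l0.le (by linarith) hs
      have a3 := norm_sub_le (feat (tau k) (σ * tau j)) (feat (tau l) (σ * tau j))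
      linarith
    · have e : (pt (tau j) (nA j σ k) - pt (tau j) (nA j σ l)).2
          = feat (tau j) (σ * (1 - tau k ^ 2)) - feat (tau j) (σ * (1 - tau l ^ 2)) := by
        simp [pt, nA]
      rw [e]
      have a1 := feat_lip (s := σ * (1 - tau k ^ 2)) (s' := σ * (1 - tau l ^ 2)) t0.le (by linarith)
        (by rw [abs_sig hσ, abs_le]; constructor <;> nlinarith)
        (by rw [abs_sig hσ, abs_le]; constructor <;> nlinarith)
      have e2 : σ * (1 - tau k ^ 2) - σ * (1 - tau l ^ 2) = σ * (-(tau k ^ 2 - tau l ^ 2)) := by ring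
      rw [e2, abs_sig hσ, abs_neg, abs_of_nonneg (by nlinarith)] at a1
      have a2 : tau j ^ 4 ≤ 1 := pow_le_one₀ t0.le (by linarith)
      have a3 : tau j ^ 4 * (tau k ^ 2 - tau l ^ 2) ≤ 1 * tau k :=
        mul_le_mul a2 (by nlinarith) (by nlinarith) (by norm_num)
      linarith
  refine (pow_le_pow_left₀ (norm_nonneg _) h4 12).trans ?_
  have e : ((nA j σ l).1 - (nA j σ k).1) ^ 2 = (tau k ^ 2 - tau l ^ 2) ^ 2 := by
    simp only [nA]
    rcases hσ with rfl | rfl <;> ring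
  rw [e]
  have b1 : tau k ^ 8 ≤ (tau j ^ 2) ^ 8 := pow_le_pow_left₀ k0.le jk 8
  have b2 : (tau k ^ 2 / 2) ^ 2 ≤ (tau k ^ 2 - tau l ^ 2) ^ 2 :=
    pow_le_pow_left₀ (by positivity) (by linarith) 2
  have b3 := mul_le_mul b1 b2 (by positivity) (by positivity)
  have e1 : (4 * tau k) ^ 12 = 4 ^ 13 * (tau k ^ 8 * (tau k ^ 2 / 2) ^ 2) := by ring
  have e2 : (4 * 10 ^ 12) * tau j ^ 16 * (tau k ^ 2 - tau l ^ 2) ^ 2
      = (4 * 10 ^ 12) * ((tau j ^ 2) ^ 8 * (tau k ^ 2 - tau l ^ 2) ^ 2) := by ring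
  rw [e1, e2]
  have b4 : 0 ≤ (tau j ^ 2) ^ 8 * (tau k ^ 2 - tau l ^ 2) ^ 2 := by positivity
  linarith

theorem sq_far {t x : ℝ} (h0 : 0 ≤ t) (h : t / 2 ≤ x ∨ x ≤ -(t / 2)) : t ^ 2 / 4 ≤ x ^ 2 := by
  rcases h with h | h <;> nlinarith

theorem gam_hold (j : ℕ) (u : ℝ × V) (hu : u ∈ Gam j) (v : ℝ × V) (hv : v ∈ Gam j) :
    ‖pt (tau j) u - pt (tau j) v‖ ^ 12 ≤ (4 * 10 ^ 12) * tau j ^ 16 * (v.1 - u.1) ^ 2 := by
  have t0 := tau_pos j
  have t1 := tau_le j
  by_cases huv : u = v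
  · subst huv; simp
  have hsq : ∀ k, 0 ≤ tau k ^ 2 ∧ tau k ^ 2 ≤ 1 / 1024 := fun k =>
    ⟨sq_nonneg _, by nlinarith [tau_pos k, tau_le k]⟩
  have hlt : ∀ i k, i < k → tau k ≤ tau i / 2 := fun i k h => by
    nlinarith [tau_pos i, tau_le i, tau_sq i k h]
  have hu' := hu
  have hv' := hv
  rcases hu' with ⟨σ, hσ, k, hk, rfl⟩ | ⟨σ, hσ, k, hk, rfl⟩ | rfl <;>
    rcases hv' with ⟨ρ, hρ, l, hl, rfl⟩ | ⟨ρ, hρ, l, hl, rfl⟩ | rfl
  · by_cases hσρ : σ = ρ
    · subst hσρ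
      rcases lt_trichotomy k l with h | h | h
      · exact cluster_case j hσ hk h
      · exact absurd (by rw [h]) huv
      · have := cluster_case j hσ hl h
        rw [norm_sub_rev, ← neg_sub (nA j σ l).1, neg_sq] at this
        exact this
    · refine far_case j _ _ hu hv (sq_far t0.le ?_)
      simp only [nA]
      have := hsq k
      have := hsq l
      rcases hσ with rfl | rfl <;> rcases hρ with rfl | rfl
      · exact absurd rfl hσρ
      · right; linarith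
      · left; linarith
      · exact absurd rfl hσρ
  · refine far_case j _ _ hu hv (sq_far t0.le ?_)
    simp only [nA, nB]
    have := hsq k
    have := tau_pos l
    have := tau_le l
    rcases hσ with rfl | rfl <;> rcases hρ with rfl | rfl
    · right; linarith
    · right; linarith
    · left; linarith
    · left; linarith
  · refine far_case j _ _ hu hv (sq_far t0.le ?_)
    simp only [nA, nS]
    have := hsq k
    rcases hσ with rfl | rfl
    · right; linarith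
    · left; linarith
  · refine far_case j _ _ hu hv (sq_far t0.le ?_)
    simp only [nA, nB]
    have := hsq l
    have := tau_pos k
    have := tau_le k
    rcases hσ with rfl | rfl <;> rcases hρ with rfl | rfl
    · left; linarith
    · right; linarith
    · left; linarith
    · right; linarith
  · refine far_case j _ _ hu hv (sq_far t0.le ?_)
    have a1 := hlt k j hk
    have a2 := hlt l j hl
    have a3 := tau_pos k
    have a4 := tau_pos l
    rcases lt_trichotomy k l with h | h | h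
    · have := hlt k l h
      simp only [nB]
      rcases hσ with rfl | rfl <;> rcases hρ with rfl | rfl
      · right; linarith
      · right; linarith
      · left; linarith
      · left; linarith
    · subst h
      simp only [nB]
      rcases hσ with rfl | rfl <;> rcases hρ with rfl | rfl
      · exact absurd rfl huv
      · right; linarith
      · left; linarith
      · exact absurd rfl huv
    · have := hlt l k h
      simp only [nB]
      rcases hσ with rfl | rfl <;> rcases hρ with rfl | rfl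
      · left; linarith
      · right; linarith
      · left; linarith
      · right; linarith
  · refine far_case j _ _ hu hv (sq_far t0.le ?_)
    simp only [nB, nS]
    have := hlt k j hk
    rcases hσ with rfl | rfl
    · right; linarith
    · left; linarith
  · refine far_case j _ _ hu hv (sq_far t0.le ?_)
    simp only [nA, nS]
    have := hsq l
    rcases hρ with rfl | rfl
    · left; linarith
    · right; linarith
  · refine far_case j _ _ hu hv (sq_far t0.le ?_)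
    simp only [nB, nS]
    have := hlt l j hl
    rcases hρ with rfl | rfl
    · left; linarith
    · right; linarith
  · exact absurd rfl huv

theorem no_colouring (c : W → Fin 2)
    (hR : ∀ p, ∃ j, ∀ u ∈ Gam j, c (p + pt (tau j) u) = 0)
    (hB : ∀ q, ∃ k, ∀ u ∈ Gam k, c (q + (pt (tau k) u).swap) = 1) : False := by
  have key : ∀ σ : ℝ, (σ = 1 ∨ σ = -1) → ∀ j k, j < k → ∃ a ∈ pt (tau j) '' Gam j,
      ∃ b ∈ pt (tau k) '' Gam k, b.swap - a = (zK j σ, -feat (tau j) σ) := by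
    intro σ hσ j k h
    refine ⟨_, ⟨nA j σ k, Or.inl ⟨σ, hσ, k, h, rfl⟩, rfl⟩, _,
      ⟨nB j σ k, Or.inr (Or.inl ⟨σ, hσ, j, h, rfl⟩), rfl⟩, ?_⟩
    ext <;> simp [pt, nA, nB]
  refine colour_arg (fun j => pt (tau j) '' Gam j) (fun j => (zK j 1, -feat (tau j) 1))
    (fun j => (zK j (-1), -feat (tau j) (-1))) mm (key 1 (Or.inl rfl)) (key (-1) (Or.inr rfl))
    (fun j => ⟨_, ⟨nS j, Or.inr (Or.inr rfl), rfl⟩, ?_⟩) c ?_ ?_
  · have h := mm_tau j
    refine Prod.ext ?_ ?_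
    · have e : (1 - -1) / 2 * tau j = tau j := by ring
      simp only [pt, nS, zK, Prod.fst_sub, Prod.fst_swap, Prod.fst_add, Prod.smul_fst, e]
      rw [sub_self, zero_div, zero_mul, zero_smul, sub_zero, smul_smul, h, one_smul]
      abel
    · simp only [pt, nS, zeta, Prod.snd_sub, Prod.snd_swap, Prod.snd_add, Prod.smul_snd]
      have e : -feat (tau j) (-1) - -feat (tau j) 1 = feat (tau j) 1 - feat (tau j) (-1) := by abel
      rw [e]; abel
  · intro p
    obtain ⟨j, hj⟩ := hR p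
    exact ⟨j, by rintro _ ⟨u, hu, rfl⟩; exact hj u hu⟩
  · intro p
    obtain ⟨j, hj⟩ := hB p
    exact ⟨j, by rintro _ ⟨u, hu, rfl⟩; exact hj u hu⟩

theorem main_false
    (H : ∀ (E : Type) [NormedAddCommGroup E] [NormedSpace ℝ E] [FiniteDimensional ℝ E]
      [StrictConvexSpace ℝ E],
      2 ≤ Module.finrank ℝ E →
      ∀ M : Set E, M.Infinite →
        (∃ c : E → Fin 2, ∀ f : E → E,
            (∀ x ∈ M, ∀ y ∈ M, dist (f x) (f y) = dist x y) →
            ∃ x ∈ M, ∃ y ∈ M, c (f x) ≠ c (f y))) : False := by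
  classical
  have hS : ∀ j, nS j ∈ Gam j := fun j => Or.inr (Or.inr rfl)
  obtain ⟨N, n1, n2, n3, n4, n5⟩ := exists_N tau tau_pos tau_le tau_sq Gam (4 * 10 ^ 12)
    (by norm_num) (fun j => ⟨_, hS j⟩) gam_ok gam_hold
  let a : ℕ → W := fun j => pt (tau j) (nS j)
  have N0 : N 0 = 0 := by simpa using n3 0 0
  have Nn : ∀ x y, N (x - y) = N (y - x) := fun x y => by
    have := n3 (-1) (y - x)
    simpa using this
  have dpos : ∀ i j, i < j → 0 < dd (tau i) (tau j) := fun i j h => by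
    linarith [dd_lo (tau_pos i) (by linarith [tau_le i]) (tau_pos j).le (tau_sq i j h), tau_pos i]
  have hinj : Function.Injective a := by
    apply Function.Injective.of_lt_imp_ne
    intro i j h e
    have := (n5 i j h _ (hS i) _ (hS j)).1
    have e' : pt (tau i) (nS i) = pt (tau j) (nS j) := e
    rw [e', sub_self, N0] at this
    linarith [dpos i j h]
  obtain ⟨c, hc⟩ := transfer H W (by simp) N n1 n2 n3 n4 (Set.range a)
    (Set.infinite_range_of_injective hinj)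
  have gen : ∀ g : ℕ → W, (∀ i j, i < j → N (g i - g j) = dd (tau i) (tau j)) →
      ∃ i j, c (g i) ≠ c (g j) := by
    intro g hg
    obtain ⟨x, ⟨i, rfl⟩, y, ⟨j, rfl⟩, h⟩ := hc (Function.extend a g 0) (by
      rintro _ ⟨i, rfl⟩ _ ⟨j, rfl⟩
      rw [hinj.extend_apply, hinj.extend_apply]
      rcases lt_trichotomy i j with h | h | h
      · rw [hg i j h]; exact (n5 i j h _ (hS i) _ (hS j)).1.symm
      · subst h; simp
      · rw [Nn, hg j i h, Nn]; exact (n5 j i h _ (hS j) _ (hS i)).1.symm)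
    rw [hinj.extend_apply, hinj.extend_apply] at h
    exact ⟨i, j, h⟩
  have f2 : ∀ x y z : Fin 2, x ≠ z → y ≠ z → x = y := by decide
  refine no_colouring c (fun p => ?_) (fun p => ?_)
  · by_contra h
    push Not at h
    choose u hu hu' using h
    obtain ⟨i, j, hij⟩ := gen (fun j => p + pt (tau j) (u j)) (fun i j h => by
      rw [add_sub_add_left_eq_sub]; exact (n5 i j h _ (hu i) _ (hu j)).1)
    exact hij (f2 _ _ _ (hu' i) (hu' j))
  · by_contra h
    push Not at h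
    choose u hu hu' using h
    obtain ⟨i, j, hij⟩ := gen (fun j => p + (pt (tau j) (u j)).swap) (fun i j h => by
      rw [add_sub_add_left_eq_sub]; exact (n5 i j h _ (hu i) _ (hu j)).2)
    exact hij (f2 _ _ _ (hu' i) (hu' j))

end Pool.Agent.H.MP_0e6637_co
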